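import Mathlib

/-!
# Linear algebra for the read-once branching program modules: rank and constant factors
-/

namespace Pool.Agent.Helper4.RO

set_option linter.unusedSectionVars false
set_option linter.unusedDecidableInType false

open Matrix

section

variable {F : Type*} [Field F] {m n m' n' : Type*} [Fintype m] [Fintype n] [DecidableEq m]
  [DecidableEq n] [Fintype m'] [Fintype n'] [DecidableEq m'] [DecidableEq n']

/-- A matrix of rank at least `r` becomes the identity after multiplication by constants. -/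
theorem exists_mul_eq_one {r : ℕ} (A : Matrix m n F) (h : r ≤ A.rank) :
    ∃ (P : Matrix (Fin r) m F) (Q : Matrix n (Fin r) F), P * A * Q = 1 := by
  have h1 : Module.finrank F (LinearMap.range A.mulVecLin) = A.rank := rfl
  have hle : Module.finrank F (Fin r → F) ≤ Module.finrank F (LinearMap.range A.mulVecLin) := by
    rw [h1, Module.finrank_fin_fun]
    exact h
  obtain ⟨f, hf⟩ := finrank_le_iff_exists_linearMap.1 hle
  have hq : ∀ i : Fin r, ∃ q : n → F, A.mulVecLin q = f (Pi.single i 1) := fun i =>
    (f (Pi.single i 1)).2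
  choose q hq using hq
  set Q : Matrix n (Fin r) F := Matrix.of fun a i => q i a with hQ
  have hAQ : Matrix.toLin' (A * Q) = (LinearMap.range A.mulVecLin).subtype ∘ₗ f := by
    apply LinearMap.pi_ext'
    intro i
    apply LinearMap.ext
    intro x
    simp only [LinearMap.comp_apply, LinearMap.single_apply, Submodule.subtype_apply]
    have hs : (Pi.single i x : Fin r → F) = x • Pi.single i 1 := by
      rw [← Pi.single_smul, smul_eq_mul, mul_one]
    rw [hs, map_smul, map_smul, Submodule.coe_smul, ← hq i, Matrix.toLin'_apply,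
      ← Matrix.mulVec_mulVec, Matrix.mulVecLin_apply]
    congr 2
    rw [Matrix.mulVec_single_one]
    rfl
  obtain ⟨g, hg⟩ := LinearMap.exists_leftInverse_of_injective (Matrix.toLin' (A * Q)) (by
    rw [LinearMap.ker_eq_bot, hAQ]
    exact (Submodule.injective_subtype _).comp hf)
  refine ⟨LinearMap.toMatrix' g, Q, ?_⟩
  rw [Matrix.mul_assoc]
  have h2 := congrArg LinearMap.toMatrix' hg
  rw [LinearMap.toMatrix'_comp, LinearMap.toMatrix'_toLin', LinearMap.toMatrix'_id] at h2
  exact h2

/-- A matrix of rank at most `r` factors through `r` dimensions. -/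
theorem exists_factor {r : ℕ} (A : Matrix m n F) (h : A.rank ≤ r) :
    ∃ (P : Matrix m (Fin r) F) (Q : Matrix (Fin r) n F), A = P * Q := by
  have h1 : Module.finrank F (LinearMap.range A.mulVecLin) = A.rank := rfl
  have hle : Module.finrank F (LinearMap.range A.mulVecLin) ≤ Module.finrank F (Fin r → F) := by
    rw [h1, Module.finrank_fin_fun]
    exact h
  obtain ⟨f, hf⟩ := finrank_le_iff_exists_linearMap.1 hle
  obtain ⟨g, hg⟩ := LinearMap.exists_leftInverse_of_injective f (LinearMap.ker_eq_bot.2 hf)
  refine ⟨LinearMap.toMatrix' ((LinearMap.range A.mulVecLin).subtype ∘ₗ g),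
    LinearMap.toMatrix' (f ∘ₗ A.mulVecLin.rangeRestrict), ?_⟩
  rw [← LinearMap.toMatrix'_comp]
  have h2 : ((LinearMap.range A.mulVecLin).subtype ∘ₗ g) ∘ₗ (f ∘ₗ A.mulVecLin.rangeRestrict) =
      Matrix.toLin' A := by
    apply LinearMap.ext
    intro x
    have h3 := LinearMap.congr_fun hg (A.mulVecLin.rangeRestrict x)
    simp only [LinearMap.comp_apply, LinearMap.id_apply] at h3 ⊢
    rw [h3]
    rfl
  rw [h2, LinearMap.toMatrix'_toLin']

theorem rank_mul_mul_le (P : Matrix m' m F) (A : Matrix m n F) (Q : Matrix n n' F) :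
    (P * A * Q).rank ≤ A.rank :=
  (Matrix.rank_mul_le_left _ _).trans (Matrix.rank_mul_le_right _ _)

/-- The rank order on matrices is the order of constant factors. -/
theorem exists_of_rank_le (A : Matrix m n F) (B : Matrix m' n' F) (h : A.rank ≤ B.rank) :
    ∃ (P : Matrix m m' F) (Q : Matrix n' n F), A = P * B * Q := by
  obtain ⟨P₁, Q₁, hA⟩ := exists_factor A h
  obtain ⟨P₂, Q₂, hB⟩ := exists_mul_eq_one B le_rfl
  refine ⟨P₁ * P₂, Q₂ * Q₁, ?_⟩
  calc A = P₁ * (P₂ * B * Q₂) * Q₁ := by rw [hB, Matrix.mul_one, hA]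
    _ = P₁ * P₂ * B * (Q₂ * Q₁) := by simp only [Matrix.mul_assoc]

/-- A nonzero determinant after constant factors bounds the rank from below. -/
theorem le_rank_of_det_ne_zero {r : ℕ} (P : Matrix (Fin r) m F) (A : Matrix m n F)
    (Q : Matrix n (Fin r) F) (h : (P * A * Q).det ≠ 0) : r ≤ A.rank := by
  have h1 : (P * A * Q).rank = r := by
    rw [Matrix.rank_of_det_ne_zero h, Fintype.card_fin]
  rw [← h1]
  exact rank_mul_mul_le _ _ _

/-- The exchange identity for determinants through a matrix of rank at most `r`. -/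
theorem det_exchange {r : ℕ} (T : Matrix m n F) (hT : T.rank ≤ r) (A P : Matrix (Fin r) m F)
    (B Q : Matrix n (Fin r) F) :
    (A * T * B).det * (P * T * Q).det = (A * T * Q).det * (P * T * B).det := by
  obtain ⟨T₁, T₂, rfl⟩ := exists_factor T hT
  have h : ∀ (X : Matrix (Fin r) m F) (Y : Matrix n (Fin r) F),
      (X * (T₁ * T₂) * Y).det = (X * T₁).det * (T₂ * Y).det := by
    intro X Y
    rw [← Matrix.det_mul]
    congr 1
    simp only [Matrix.mul_assoc]
  simp only [h]
  ring

/-- If `rank B ≤ rank (B C)` then `z B C = 0` implies `z B = 0`. -/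
theorem vecMul_eq_zero_of_rank (B : Matrix m n F) (C : Matrix n n' F) (h : B.rank ≤ (B * C).rank)
    (z : m → F) (hz : z ᵥ* (B * C) = 0) : z ᵥ* B = 0 := by
  have hle : LinearMap.range (B * C).mulVecLin ≤ LinearMap.range B.mulVecLin := by
    rw [Matrix.mulVecLin_mul]
    exact LinearMap.range_comp_le_range _ _
  have heq : LinearMap.range (B * C).mulVecLin = LinearMap.range B.mulVecLin :=
    Submodule.eq_of_le_of_finrank_le hle h
  funext j
  have hj : B.mulVecLin (Pi.single j 1) ∈ LinearMap.range (B * C).mulVecLin := by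
    rw [heq]
    exact LinearMap.mem_range_self _ _
  obtain ⟨d, hd⟩ := hj
  have h1 : (z ᵥ* B) j = z ⬝ᵥ (B *ᵥ Pi.single j 1) := by
    rw [Matrix.dotProduct_mulVec, dotProduct_single_one]
  rw [h1]
  rw [Matrix.mulVecLin_apply, Matrix.mulVecLin_apply] at hd
  rw [← hd, Matrix.dotProduct_mulVec, hz, zero_dotProduct]
  rfl

end

end Pool.Agent.Helper4.RO
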