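import Mathlib
import Pool.Agent.Helper4.RO.LinAlg

/-!
# Products of matrices over intervals, polynomial functions, joined sets
-/

namespace Pool.Agent.Helper4.RO

set_option linter.unusedSectionVars false
set_option linter.unusedDecidableInType false

open Matrix

/-! ### Products over intervals -/

section Seg

variable {R : Type*} [Semiring R] {κ : Type*} [Fintype κ] [DecidableEq κ]

/-- The product `A i * ... * A (i + k - 1)`. -/
def pr (A : ℕ → Matrix κ κ R) (i : ℕ) : ℕ → Matrix κ κ R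
  | 0 => 1
  | k + 1 => pr A i k * A (i + k)

/-- The product `A i * ... * A (j - 1)`. -/
def seg (A : ℕ → Matrix κ κ R) (i j : ℕ) : Matrix κ κ R := pr A i (j - i)

theorem pr_add (A : ℕ → Matrix κ κ R) (i k m : ℕ) : pr A i (k + m) = pr A i k * pr A (i + k) m := by
  induction m with
  | zero => rw [Nat.add_zero, pr, Matrix.mul_one]
  | succ m ih => rw [← Nat.add_assoc, pr, pr, ih, Matrix.mul_assoc, Nat.add_assoc]

theorem pr_congr {A B : ℕ → Matrix κ κ R} {i : ℕ} : ∀ {k : ℕ},
    (∀ l, i ≤ l → l < i + k → A l = B l) → pr A i k = pr B i k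
  | 0, _ => rfl
  | k + 1, h => by
    rw [pr, pr, pr_congr fun l h1 h2 => h l h1 (by omega), h (i + k) (by omega) (by omega)]

theorem pr_shift (A : ℕ → Matrix κ κ R) (i i' : ℕ) : ∀ k : ℕ,
    pr A (i + i') k = pr (fun l => A (i + l)) i' k
  | 0 => rfl
  | k + 1 => by rw [pr, pr, pr_shift A i i' k, Nat.add_assoc]

theorem seg_self (A : ℕ → Matrix κ κ R) (i : ℕ) : seg A i i = 1 := by
  rw [seg, Nat.sub_self, pr]

theorem seg_succ (A : ℕ → Matrix κ κ R) {i j : ℕ} (h : i ≤ j) :
    seg A i (j + 1) = seg A i j * A j := by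
  rw [seg, seg, Nat.succ_sub h, pr, Nat.add_sub_cancel' h]

theorem seg_mul (A : ℕ → Matrix κ κ R) {i j k : ℕ} (h : i ≤ j) (h' : j ≤ k) :
    seg A i j * seg A j k = seg A i k := by
  obtain ⟨a, rfl⟩ := Nat.exists_eq_add_of_le h
  obtain ⟨b, rfl⟩ := Nat.exists_eq_add_of_le h'
  rw [seg, seg, seg]
  have h1 : i + a - i = a := by omega
  have h2 : i + a + b - (i + a) = b := by omega
  have h3 : i + a + b - i = a + b := by omega
  rw [h1, h2, h3, pr_add]

theorem seg_congr {A B : ℕ → Matrix κ κ R} {i j : ℕ} (h : ∀ l, i ≤ l → l < j → A l = B l) :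
    seg A i j = seg B i j :=
  pr_congr fun l h1 h2 => h l h1 (by omega)

theorem seg_shift (A : ℕ → Matrix κ κ R) (i j : ℕ) :
    seg A i j = seg (fun l => A (i + l)) 0 (j - i) := by
  rw [seg, seg, Nat.sub_zero, ← pr_shift A i 0, Nat.add_zero]

theorem seg_shift' (A : ℕ → Matrix κ κ R) (i a b : ℕ) :
    seg A (i + a) (i + b) = seg (fun l => A (i + l)) a b := by
  rw [seg, seg, ← pr_shift A i a]
  congr 1
  omega

theorem seg_map {S : Type*} [Semiring S] (A : ℕ → Matrix κ κ R) (φ : R →+* S) (i j : ℕ) :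
    (seg A i j).map φ = seg (fun l => (A l).map φ) i j := by
  rw [seg, seg]
  generalize j - i = k
  induction k with
  | zero => exact Matrix.map_one _ (map_zero φ) (map_one φ)
  | succ k ih => rw [pr, pr, Matrix.map_mul, ih]

end Seg

/-! ### Polynomial functions -/

section Poly

variable {F : Type*} [Field F] {ι : Type*}

/-- Polynomial functions of the coordinates. -/
def IsPoly (f : (ι → F) → F) : Prop := ∃ p : MvPolynomial ι F, ∀ x, f x = MvPolynomial.eval x p

theorem IsPoly.const (c : F) : IsPoly (fun _ : ι → F => c) := ⟨MvPolynomial.C c, fun x => by simp⟩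

theorem IsPoly.add {f g : (ι → F) → F} (hf : IsPoly f) (hg : IsPoly g) :
    IsPoly fun x => f x + g x := by
  obtain ⟨p, hp⟩ := hf
  obtain ⟨q, hq⟩ := hg
  exact ⟨p + q, fun x => by simp only [map_add, hp, hq]⟩

theorem IsPoly.mul {f g : (ι → F) → F} (hf : IsPoly f) (hg : IsPoly g) :
    IsPoly fun x => f x * g x := by
  obtain ⟨p, hp⟩ := hf
  obtain ⟨q, hq⟩ := hg
  exact ⟨p * q, fun x => by simp only [map_mul, hp, hq]⟩

theorem IsPoly.sum {α : Type*} (s : Finset α) {f : α → (ι → F) → F} (hf : ∀ a ∈ s, IsPoly (f a)) :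
    IsPoly fun x => ∑ a ∈ s, f a x := by
  classical
  induction s using Finset.induction_on with
  | empty => simpa using IsPoly.const (ι := ι) (0 : F)
  | insert a s ha ih =>
    have h1 := (hf a (Finset.mem_insert_self a s)).add
      (ih fun b hb => hf b (Finset.mem_insert_of_mem hb))
    have h2 : (fun x => ∑ b ∈ insert a s, f b x) = fun x => f a x + ∑ b ∈ s, f b x := by
      funext x
      rw [Finset.sum_insert ha]
    rw [h2]
    exact h1

theorem IsPoly.prod {α : Type*} (s : Finset α) {f : α → (ι → F) → F} (hf : ∀ a ∈ s, IsPoly (f a)) :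
    IsPoly fun x => ∏ a ∈ s, f a x := by
  classical
  induction s using Finset.induction_on with
  | empty => simpa using IsPoly.const (ι := ι) (1 : F)
  | insert a s ha ih =>
    have h1 := (hf a (Finset.mem_insert_self a s)).mul
      (ih fun b hb => hf b (Finset.mem_insert_of_mem hb))
    have h2 : (fun x => ∏ b ∈ insert a s, f b x) = fun x => f a x * ∏ b ∈ s, f b x := by
      funext x
      rw [Finset.prod_insert ha]
    rw [h2]
    exact h1

theorem IsPoly.coord (P : Polynomial F) (i : ι) : IsPoly fun x : ι → F => P.eval (x i) := by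
  refine ⟨Polynomial.aeval (MvPolynomial.X i) P, fun x => ?_⟩
  have h := Polynomial.hom_eval₂ P (algebraMap F (MvPolynomial ι F)) (MvPolynomial.eval x)
    (MvPolynomial.X i)
  rw [Polynomial.aeval_def, h, MvPolynomial.eval_X]
  have h2 : (MvPolynomial.eval x).comp (algebraMap F (MvPolynomial ι F)) = RingHom.id F := by
    ext a
    simp [MvPolynomial.algebraMap_eq]
  rw [h2, Polynomial.eval₂_id]

/-- Matrices of polynomial functions. -/
def MIsPoly {m n : Type*} (A : (ι → F) → Matrix m n F) : Prop := ∀ a b, IsPoly fun x => A x a b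

theorem MIsPoly.const {m n : Type*} (A : Matrix m n F) : MIsPoly (fun _ : ι → F => A) :=
  fun a b => IsPoly.const (A a b)

theorem MIsPoly.mul {m n o : Type*} [Fintype n] {A : (ι → F) → Matrix m n F}
    {B : (ι → F) → Matrix n o F} (hA : MIsPoly A) (hB : MIsPoly B) : MIsPoly fun x => A x * B x := by
  intro a b
  have h : (fun x => (A x * B x) a b) = fun x => ∑ c, A x a c * B x c b := by
    funext x
    rw [Matrix.mul_apply]
  rw [h]
  exact IsPoly.sum _ fun c _ => (hA a c).mul (hB c b)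

theorem MIsPoly.det {m : Type*} [Fintype m] [DecidableEq m] {A : (ι → F) → Matrix m m F}
    (hA : MIsPoly A) : IsPoly fun x => (A x).det := by
  have h : (fun x => (A x).det) = fun x => ∑ σ : Equiv.Perm m,
      ((Equiv.Perm.sign σ : ℤ) : F) * ∏ i, A x (σ i) i := by
    funext x
    rw [Matrix.det_apply']
  rw [h]
  exact IsPoly.sum _ fun σ _ => (IsPoly.const _).mul (IsPoly.prod _ fun i _ => hA (σ i) i)

variable {κ : Type*} [Fintype κ] [DecidableEq κ]

/-- The layers at a point. -/
def ev (M : ℕ → Matrix κ κ (Polynomial F)) (x : ℕ → F) (l : ℕ) : Matrix κ κ F :=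
  (M l).map (Polynomial.eval (x l))

theorem MIsPoly.seg {A : (ι → F) → ℕ → Matrix κ κ F} (hA : ∀ l, MIsPoly fun x => A x l) (i j : ℕ) :
    MIsPoly fun x => seg (A x) i j := by
  unfold RO.seg
  generalize j - i = k
  induction k with
  | zero => exact MIsPoly.const 1
  | succ k ih => exact ih.mul (hA _)

theorem MIsPoly.ev (M : ℕ → Matrix κ κ (Polynomial F)) (v : ℕ → ι) (l : ℕ) :
    MIsPoly fun x : ι → F => ev M (fun k => x (v k)) l :=
  fun a b => IsPoly.coord (M l a b) (v l)

theorem MIsPoly.seg_ev (M : ℕ → Matrix κ κ (Polynomial F)) (v : ℕ → ι) (i j : ℕ) :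
    MIsPoly fun x : ι → F => RO.seg (RO.ev M (fun k => x (v k))) i j :=
  MIsPoly.seg (fun l => MIsPoly.ev M v l) i j

theorem MIsPoly.dot {m n : Type*} [Fintype m] [Fintype n] {A : (ι → F) → Matrix m n F}
    (hA : MIsPoly A) (u : m → F) (v : n → F) : IsPoly fun x => u ⬝ᵥ (A x *ᵥ v) := by
  have h : (fun x => u ⬝ᵥ (A x *ᵥ v)) = fun x => ∑ a, u a * ∑ b, A x a b * v b := by
    funext x
    rfl
  rw [h]
  exact IsPoly.sum _ fun a _ => (IsPoly.const _).mul
    (IsPoly.sum _ fun b _ => (hA a b).mul (IsPoly.const _))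

/-- Along a polynomial curve a polynomial function is a polynomial. -/
theorem IsPoly.curve {f : (ι → F) → F} (hf : IsPoly f) (Z : ι → Polynomial F) :
    ∃ g : Polynomial F, ∀ s, f (fun i => (Z i).eval s) = g.eval s := by
  obtain ⟨p, hp⟩ := hf
  refine ⟨MvPolynomial.aeval Z p, fun s => ?_⟩
  rw [hp]
  have h : (Polynomial.evalRingHom s).comp (MvPolynomial.aeval Z).toRingHom =
      MvPolynomial.eval fun i => (Z i).eval s := by
    apply MvPolynomial.ringHom_ext
    · intro a
      simp
    · intro i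
      simp
  exact (RingHom.congr_fun h p).symm

end Poly

/-! ### Joined sets -/

section Joined

variable {F : Type*} [Field F] {ι : Type*}

/-- Any two points are joined by a polynomial curve. -/
def Joined (S : Set (ι → F)) : Prop := ∀ x ∈ S, ∀ y ∈ S, ∃ Z : ι → Polynomial F,
  (∀ i, (Z i).eval 0 = x i) ∧ (∀ i, (Z i).eval 1 = y i) ∧ ∀ s, (fun i => (Z i).eval s) ∈ S

theorem Joined.mul [Infinite F] {S : Set (ι → F)} (hS : Joined S) {f g : (ι → F) → F}
    (hf : IsPoly f) (hg : IsPoly g) (hf' : ∃ x ∈ S, f x ≠ 0) (hg' : ∃ x ∈ S, g x ≠ 0) :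
    ∃ x ∈ S, f x * g x ≠ 0 := by
  obtain ⟨x, hx, hfx⟩ := hf'
  obtain ⟨y, hy, hgy⟩ := hg'
  obtain ⟨Z, h0, h1, hZ⟩ := hS x hx y hy
  obtain ⟨p, hp⟩ := hf.curve Z
  obtain ⟨q, hq⟩ := hg.curve Z
  have hp0 : p ≠ 0 := by
    rintro rfl
    apply hfx
    have := hp 0
    rw [Polynomial.eval_zero] at this
    rw [← this]
    congr 1
    funext i
    exact (h0 i).symm
  have hq0 : q ≠ 0 := by
    rintro rfl
    apply hgy
    have := hq 1
    rw [Polynomial.eval_zero] at this
    rw [← this]
    congr 1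
    funext i
    exact (h1 i).symm
  by_contra hcon
  push Not at hcon
  apply mul_ne_zero hp0 hq0
  apply Polynomial.funext
  intro s
  have := hcon _ (hZ s)
  rw [hp, hq] at this
  rw [Polynomial.eval_mul, this, Polynomial.eval_zero]

theorem Joined.prod [Infinite F] {S : Set (ι → F)} (hS : Joined S) (hne : S.Nonempty) {α : Type*}
    (s : Finset α) (f : α → (ι → F) → F) (hf : ∀ a ∈ s, IsPoly (f a))
    (hf' : ∀ a ∈ s, ∃ x ∈ S, f a x ≠ 0) : ∃ x ∈ S, ∀ a ∈ s, f a x ≠ 0 := by
  classical
  have h : ∃ x ∈ S, ∏ a ∈ s, f a x ≠ 0 := by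
    induction s using Finset.induction_on with
    | empty =>
      obtain ⟨x, hx⟩ := hne
      exact ⟨x, hx, by simp⟩
    | insert a s ha ih =>
      obtain ⟨x, hx, h1⟩ := hS.mul (hf a (Finset.mem_insert_self a s))
        (IsPoly.prod s fun b hb => hf b (Finset.mem_insert_of_mem hb))
        (hf' a (Finset.mem_insert_self a s))
        (ih (fun b hb => hf b (Finset.mem_insert_of_mem hb))
          fun b hb => hf' b (Finset.mem_insert_of_mem hb))
      exact ⟨x, hx, by rwa [Finset.prod_insert ha]⟩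
  obtain ⟨x, hx, h1⟩ := h
  exact ⟨x, hx, fun a ha => Finset.prod_ne_zero_iff.1 h1 a ha⟩

theorem joined_agree (c : ι → F) (J : Set ι) : Joined {x : ι → F | ∀ i ∈ J, x i = c i} := by
  intro x hx y hy
  refine ⟨fun i => Polynomial.C (x i) + Polynomial.X * Polynomial.C (y i - x i), ?_, ?_, ?_⟩
  · intro i
    simp
  · intro i
    simp
  · intro s i hi
    change Polynomial.eval s _ = _
    rw [Polynomial.eval_add, Polynomial.eval_mul, Polynomial.eval_C, Polynomial.eval_C, hx i hi,
      hy i hi]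
    ring

end Joined

end Pool.Agent.Helper4.RO
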