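import Mathlib
import Pool.Agent.Helper4.RO.Basic

/-!
# The modification lemma

If at `X₀` all internal intervals of a chain have maximal rank, then a nonzero value of the chain
is attained at a point which differs from `X₀` at a bounded number of positions.
-/

namespace Pool.Agent.Helper4.RO

set_option linter.unusedSectionVars false
set_option linter.unusedDecidableInType false

open Matrix

/-- The number of modifications for width `W`. -/
def Tb (W : ℕ) : ℕ := (2 * W + 2) ^ (W + 1) + 1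

theorem exists_blocks (m W : ℕ) (hm : 1 ≤ m) (ρ : ℕ → ℕ → ℕ) (N : ℕ)
    (hmono : ∀ a a' b' b, a ≤ a' → a' ≤ b' → b' ≤ b → b ≤ N → ρ a b ≤ ρ a' b')
    (hW : ∀ a b, ρ a b ≤ W) :
    ∀ k a, a + m ^ (k + 1) ≤ N → W ≤ ρ a (a + m ^ (k + 1)) + k →
      ∃ a' h, 1 ≤ h ∧ a' + m * h ≤ N ∧
        ∀ l < m, ρ (a' + l * h) (a' + (l + 1) * h) = ρ a' (a' + m * h) := by
  intro k
  induction k with
  | zero =>
    intro a ha hr
    rw [zero_add, pow_one] at ha hr
    refine ⟨a, 1, le_rfl, by omega, ?_⟩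
    intro l hl
    rw [Nat.mul_one, Nat.mul_one, Nat.mul_one]
    have h1 := hmono a (a + l) (a + (l + 1)) (a + m) (by omega) (by omega) (by omega) ha
    have h2 := hW (a + l) (a + (l + 1))
    have h3 := hW a (a + m)
    omega
  | succ k ih =>
    intro a ha hr
    have hp : m ^ (k + 1 + 1) = m * m ^ (k + 1) := by ring
    by_cases hall : ∀ l < m, ρ (a + l * m ^ (k + 1)) (a + (l + 1) * m ^ (k + 1)) =
        ρ a (a + m * m ^ (k + 1))
    · exact ⟨a, m ^ (k + 1), Nat.one_le_pow _ _ hm, by rw [← hp]; exact ha, hall⟩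
    · push Not at hall
      obtain ⟨l, hl, hne⟩ := hall
      have h0 : (l + 1) * m ^ (k + 1) ≤ m * m ^ (k + 1) := Nat.mul_le_mul_right _ hl
      have h4 : (l + 1) * m ^ (k + 1) = l * m ^ (k + 1) + m ^ (k + 1) := by ring
      apply ih (a + l * m ^ (k + 1))
      · omega
      · have h1 := hmono a (a + l * m ^ (k + 1)) (a + (l + 1) * m ^ (k + 1))
          (a + m * m ^ (k + 1)) (by omega) (by omega) (by omega) (by omega)
        have h3 : a + l * m ^ (k + 1) + m ^ (k + 1) = a + (l + 1) * m ^ (k + 1) := by omega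
        rw [h3]
        rw [hp] at hr
        omega

section

variable {F : Type*} [Field F] {κ : Type*} [Fintype κ] [DecidableEq κ]

theorem finrank_range_vecMulLinear {m n : Type*} [Fintype m] [Fintype n] [DecidableEq m]
    [DecidableEq n] (A : Matrix m n F) :
    Module.finrank F (LinearMap.range A.vecMulLinear) = A.rank := by
  rw [← Matrix.rank_transpose]
  have h : Aᵀ.mulVecLin = A.vecMulLinear := by
    apply LinearMap.ext
    intro x
    rw [Matrix.mulVecLin_apply, Matrix.mulVec_transpose, Matrix.vecMulLinear_apply]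
  rw [Matrix.rank, h]

theorem exists_range_vecMulLinear (U : Submodule F (κ → F)) :
    ∃ A : Matrix κ κ F, LinearMap.range A.vecMulLinear = U := by
  obtain ⟨g, hg⟩ := LinearMap.exists_leftInverse_of_injective U.subtype
    (LinearMap.ker_eq_bot.2 (Submodule.injective_subtype U))
  refine ⟨(LinearMap.toMatrix' (U.subtype ∘ₗ g))ᵀ, ?_⟩
  have h : (LinearMap.toMatrix' (U.subtype ∘ₗ g))ᵀ.vecMulLinear = U.subtype ∘ₗ g := by
    apply LinearMap.ext
    intro x
    rw [Matrix.vecMulLinear_apply, Matrix.vecMul_transpose, ← Matrix.toLin'_apply,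
      Matrix.toLin'_toMatrix']
  rw [h]
  apply le_antisymm
  · rintro _ ⟨x, rfl⟩
    exact (g x).2
  · intro x hx
    refine ⟨x, ?_⟩
    have h2 := LinearMap.congr_fun hg ⟨x, hx⟩
    simp only [LinearMap.comp_apply, LinearMap.id_apply, Submodule.subtype_apply] at h2 ⊢
    rw [h2]

/-- Increasing subspaces with `dim` bounded by `W` repeat within `W + 1` steps. -/
theorem exists_repeat (W : ℕ) (hW : Module.finrank F (κ → F) ≤ W) (D : ℕ → Submodule F (κ → F))
    (hD : ∀ j ≤ W, D j ≤ D (j + 1)) : ∃ j ≤ W, D j = D (j + 1) := by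
  by_contra hcon
  push Not at hcon
  have h : ∀ j, j ≤ W + 1 → j ≤ Module.finrank F (D j) := by
    intro j
    induction j with
    | zero => intro _; exact Nat.zero_le _
    | succ j ih =>
      intro hj
      have h1 := ih (by omega)
      have h2 : Module.finrank F (D j) < Module.finrank F (D (j + 1)) :=
        Submodule.finrank_lt_finrank_of_lt (lt_of_le_of_ne (hD j (by omega)) (hcon j (by omega)))
      omega
  have h3 := h (W + 1) le_rfl
  have h4 := Submodule.finrank_le (D (W + 1))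
  omega

theorem seg_ev_congr (M : ℕ → Matrix κ κ (Polynomial F)) {X Y : ℕ → F} {i j : ℕ}
    (h : ∀ l, i ≤ l → l < j → X l = Y l) : seg (ev M X) i j = seg (ev M Y) i j :=
  seg_congr fun l h1 h2 => by rw [ev, ev, h l h1 h2]

/-- The value of a chain. -/
def val (M : ℕ → Matrix κ κ (Polynomial F)) (n : ℕ) (u v : κ → F) (X : ℕ → F) : F :=
  u ⬝ᵥ (seg (ev M X) 0 n *ᵥ v)

theorem core [Infinite F] (M : ℕ → Matrix κ κ (Polynomial F)) (n W : ℕ)
    (hW : Fintype.card κ ≤ W) (X₀ : ℕ → F)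
    (u v : κ → F) (s : Finset ℕ) (X₁ : ℕ → F) (hX₁ : ∀ l ∉ s, X₁ l = X₀ l)
    (h1 : val M n u v X₁ ≠ 0) (q : ℕ → ℕ) (hq : ∀ l < 2 * W + 2, q l ≤ q (l + 1))
    (hqn : q (2 * W + 2) ≤ n) (hblock : ∀ l < 2 * W + 2, ∃ i ∈ s, q l ≤ i ∧ i < q (l + 1))
    (hrank : ∀ l < 2 * W + 2, (seg (ev M X₀) (q l) (q (l + 1))).rank =
      (seg (ev M X₀) (q 0) (q (2 * W + 2))).rank)
    (hmax : ∀ l < 2 * W + 2, ∀ X, (seg (ev M X) (q l) (q (l + 1))).rank ≤
      (seg (ev M X₀) (q l) (q (l + 1))).rank) :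
    ∃ s' ⊂ s, ∃ X, (∀ l ∉ s', X l = X₀ l) ∧ val M n u v X ≠ 0 := by
  classical
  set m := 2 * W + 2 with hm
  have qmono : ∀ a b, a ≤ b → b ≤ m → q a ≤ q b := by
    intro a b hab
    induction b, hab using Nat.le_induction with
    | base => intro _; exact le_rfl
    | succ b hb ih => intro hb'; exact (ih (by omega)).trans (hq b (by omega))
  set V : ℕ → Submodule F (κ → F) := fun l =>
    Submodule.span F ((fun X => u ᵥ* seg (ev M X) 0 (q l)) '' {X | ∀ i ∉ s, X i = X₀ i}) with hV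
  have memV : ∀ l X, (∀ i ∉ s, X i = X₀ i) → u ᵥ* seg (ev M X) 0 (q l) ∈ V l := fun l X hX =>
    Submodule.subset_span ⟨X, hX, rfl⟩
  have stepmem : ∀ l < m, ∀ y : ℕ → F, (∀ i ∉ s, y i = X₀ i) → ∀ z ∈ V l,
      z ᵥ* seg (ev M y) (q l) (q (l + 1)) ∈ V (l + 1) := by
    intro l hl y hy
    have h2 : (V l).map (seg (ev M y) (q l) (q (l + 1))).vecMulLinear ≤ V (l + 1) := by
      rw [hV, Submodule.map_span_le]
      rintro _ ⟨X, hX, rfl⟩
      simp only [Matrix.vecMulLinear_apply, Matrix.vecMul_vecMul]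
      have h3 : seg (ev M X) 0 (q l) * seg (ev M y) (q l) (q (l + 1)) =
          seg (ev M fun i => if i < q l then X i else y i) 0 (q (l + 1)) := by
        rw [← seg_mul _ (Nat.zero_le (q l)) (hq l hl)]
        congr 1
        · exact seg_ev_congr M fun i _ hi => by rw [if_pos hi]
        · exact seg_ev_congr M fun i hi _ => by rw [if_neg (by omega)]
      rw [h3]
      apply memV
      intro i hi
      dsimp only
      split_ifs
      · exact hX i hi
      · exact hy i hi
    intro z hz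
    exact h2 (Submodule.mem_map_of_mem hz)
  set C : ℕ → Matrix κ κ F := fun l => seg (ev M X₀) (q l) (q m) with hC
  have hCsucc : ∀ l < m, C l = seg (ev M X₀) (q l) (q (l + 1)) * C (l + 1) := fun l hl =>
    (seg_mul _ (hq l hl) (qmono _ _ (by omega) le_rfl)).symm
  set D : ℕ → Submodule F (κ → F) := fun j => (V (2 * j)).map (C (2 * j)).vecMulLinear with hD
  have hDmono : ∀ j ≤ W, D j ≤ D (j + 1) := by
    intro j hj
    rintro _ ⟨z, hz, rfl⟩
    rw [Matrix.vecMulLinear_apply, hCsucc (2 * j) (by omega), hCsucc (2 * j + 1) (by omega),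
      ← Matrix.vecMul_vecMul, ← Matrix.vecMul_vecMul]
    exact Submodule.mem_map_of_mem (f := (C (2 * (j + 1))).vecMulLinear)
      (stepmem (2 * j + 1) (by omega) X₀ (fun _ _ => rfl) _
        (stepmem (2 * j) (by omega) X₀ (fun _ _ => rfl) z hz))
  obtain ⟨j, hj, hDj⟩ := exists_repeat W (by rw [Module.finrank_fintype_fun_eq_card]; exact hW)
    D hDmono
  obtain ⟨G, hG⟩ := exists_range_vecMulLinear
    ((V (2 * j)).map (seg (ev M X₀) (q (2 * j)) (q (2 * j + 1))).vecMulLinear)
  -- the matrix `B(y) C`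
  set BC : (ℕ → F) → Matrix κ κ F := fun y =>
    seg (ev M y) (q (2 * j + 1)) (q (2 * j + 2)) * C (2 * j + 2) with hBC
  have hBCpoly : MIsPoly BC := (MIsPoly.seg_ev M (fun k => k) _ _).mul (MIsPoly.const _)
  have hBC0 : BC X₀ = C (2 * j + 1) := (hCsucc (2 * j + 1) (by omega)).symm
  have hρ : (seg (ev M X₀) (q (2 * j + 1)) (q (2 * j + 2))).rank ≤ (BC X₀).rank := by
    rw [hBC0, hrank (2 * j + 1) (by omega), hC]
    dsimp only
    rw [← seg_mul (ev M X₀) (qmono 0 (2 * j + 1) (by omega) (by omega))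
      (qmono (2 * j + 1) m (by omega) le_rfl)]
    exact Matrix.rank_mul_le_right _ _
  obtain ⟨P₁, Q₁, hPQ₁⟩ := exists_mul_eq_one (BC X₀) hρ
  obtain ⟨P₂, Q₂, hPQ₂⟩ := exists_mul_eq_one (G * BC X₀) le_rfl
  -- choose `y`
  have hJ : Joined {x : ℕ → F | ∀ i ∈ {i | i ∉ s}, x i = X₀ i} := joined_agree X₀ _
  obtain ⟨y, hy, hy'⟩ := hJ.mul (((MIsPoly.const P₁).mul hBCpoly).mul (MIsPoly.const Q₁)).det
    (((MIsPoly.const P₂).mul ((MIsPoly.const G).mul hBCpoly)).mul (MIsPoly.const Q₂)).det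
    ⟨X₀, fun _ _ => rfl, by rw [hPQ₁, Matrix.det_one]; exact one_ne_zero⟩
    ⟨X₀, fun _ _ => rfl, by rw [hPQ₂, Matrix.det_one]; exact one_ne_zero⟩
  obtain ⟨y, hy, hy'⟩ := hJ.mul ((((MIsPoly.const P₁).mul hBCpoly).mul (MIsPoly.const Q₁)).det.mul
    (((MIsPoly.const P₂).mul ((MIsPoly.const G).mul hBCpoly)).mul (MIsPoly.const Q₂)).det)
    ((MIsPoly.seg_ev M (fun k => k) 0 n).dot u v) ⟨y, hy, hy'⟩ ⟨X₁, hX₁, h1⟩
  have hy1 := left_ne_zero_of_mul (left_ne_zero_of_mul hy')
  have hy2 := right_ne_zero_of_mul (left_ne_zero_of_mul hy')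
  have hy3 := right_ne_zero_of_mul hy'
  have hr1 := le_rank_of_det_ne_zero _ _ _ hy1
  have hr2 := le_rank_of_det_ne_zero _ _ _ hy2
  have hrB : (seg (ev M y) (q (2 * j + 1)) (q (2 * j + 2))).rank ≤ (BC y).rank :=
    (hmax (2 * j + 1) (by omega) y).trans hr1
  -- the two subspaces
  have hle : LinearMap.range (G * BC y).vecMulLinear ≤ D (j + 1) := by
    rintro _ ⟨x, rfl⟩
    have hx : G.vecMulLinear x ∈ LinearMap.range G.vecMulLinear := LinearMap.mem_range_self _ _
    rw [hG] at hx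
    obtain ⟨z, hz, hzx⟩ := hx
    rw [Matrix.vecMulLinear_apply, ← Matrix.vecMul_vecMul, ← Matrix.vecMulLinear_apply G, ← hzx,
      Matrix.vecMulLinear_apply, hBC]
    dsimp only
    rw [← Matrix.vecMul_vecMul]
    exact Submodule.mem_map_of_mem (f := (C (2 * (j + 1))).vecMulLinear)
      (stepmem (2 * j + 1) (by omega) y hy _
        (stepmem (2 * j) (by omega) X₀ (fun _ _ => rfl) z hz))
  have hD0 : LinearMap.range (G * BC X₀).vecMulLinear = D j := by
    rw [hBC0]
    apply le_antisymm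
    · rintro _ ⟨x, rfl⟩
      have hx : G.vecMulLinear x ∈ LinearMap.range G.vecMulLinear := LinearMap.mem_range_self _ _
      rw [hG] at hx
      obtain ⟨z, hz, hzx⟩ := hx
      rw [Matrix.vecMulLinear_apply, ← Matrix.vecMul_vecMul, ← Matrix.vecMulLinear_apply G, ← hzx,
        Matrix.vecMulLinear_apply, Matrix.vecMul_vecMul, ← hCsucc (2 * j) (by omega)]
      exact Submodule.mem_map_of_mem (f := (C (2 * j)).vecMulLinear) hz
    · rintro _ ⟨z, hz, rfl⟩
      have hx : z ᵥ* (seg (ev M X₀) (q (2 * j)) (q (2 * j + 1))) ∈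
          LinearMap.range G.vecMulLinear := by
        rw [hG]
        exact Submodule.mem_map_of_mem
          (f := (seg (ev M X₀) (q (2 * j)) (q (2 * j + 1))).vecMulLinear) hz
      obtain ⟨x, hx⟩ := hx
      refine ⟨x, ?_⟩
      rw [Matrix.vecMulLinear_apply] at hx
      rw [Matrix.vecMulLinear_apply, Matrix.vecMulLinear_apply, ← Matrix.vecMul_vecMul, hx,
        Matrix.vecMul_vecMul, ← hCsucc (2 * j) (by omega)]
  have heq : LinearMap.range (G * BC y).vecMulLinear = D (j + 1) := by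
    apply Submodule.eq_of_le_of_finrank_le hle
    rw [← hDj, ← hD0, finrank_range_vecMulLinear, finrank_range_vecMulLinear]
    exact hr2
  -- exchange
  set v₀ : κ → F := u ᵥ* seg (ev M y) 0 (q (2 * j + 1)) with hv₀
  have hv₀mem : v₀ ᵥ* BC y ∈ LinearMap.range (G * BC y).vecMulLinear := by
    rw [heq, hBC]
    dsimp only
    rw [← Matrix.vecMul_vecMul]
    exact Submodule.mem_map_of_mem (f := (C (2 * (j + 1))).vecMulLinear)
      (stepmem (2 * j + 1) (by omega) y hy _ (memV (2 * j + 1) y hy))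
  obtain ⟨x, hx⟩ := hv₀mem
  rw [Matrix.vecMulLinear_apply, ← Matrix.vecMul_vecMul] at hx
  have hzB := vecMul_eq_zero_of_rank _ _ hrB (x ᵥ* G - v₀) (by
    rw [Matrix.sub_vecMul]
    exact sub_eq_zero.2 hx)
  rw [Matrix.sub_vecMul, sub_eq_zero] at hzB
  -- the linear functional
  have hq3 : q (2 * j + 2) ≤ n := (qmono (2 * j + 2) m (by omega) le_rfl).trans hqn
  have hq1 : q (2 * j) ≤ q (2 * j + 1) := hq _ (by omega)
  have hq2 : q (2 * j + 1) ≤ q (2 * j + 2) := hq _ (by omega)
  by_contra hcon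
  push Not at hcon
  have hz0 : ∀ z ∈ V (2 * j), (z ᵥ* seg (ev M X₀) (q (2 * j)) (q (2 * j + 1))) ᵥ*
      seg (ev M y) (q (2 * j + 1)) (q (2 * j + 2)) ⬝ᵥ (seg (ev M y) (q (2 * j + 2)) n *ᵥ v) = 0 := by
    intro z hz
    induction hz using Submodule.span_induction with
    | mem z hz =>
      obtain ⟨X, hX, rfl⟩ := hz
      have h2 := hcon (s.filter fun i => ¬ (q (2 * j) ≤ i ∧ i < q (2 * j + 1)))
        (by
          obtain ⟨i, hi, hi2⟩ := hblock (2 * j) (by omega)
          refine Finset.filter_ssubset.2 ⟨i, hi, ?_⟩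
          exact fun h => h hi2)
        (fun i => if i < q (2 * j) then X i else if i < q (2 * j + 1) then X₀ i else y i)
        (by
          intro i hi
          rw [Finset.mem_filter, not_and, not_not] at hi
          by_cases his : i ∈ s
          · have := hi his
            rw [if_neg (by omega), if_pos this.2]
          · split_ifs
            · exact hX i his
            · rfl
            · exact hy i his)
      rw [val, ← seg_mul _ (Nat.zero_le (q (2 * j + 2))) hq3, ← seg_mul _ (Nat.zero_le _) hq2,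
        ← seg_mul _ (Nat.zero_le _) hq1] at h2
      have e1 : seg (ev M fun i => if i < q (2 * j) then X i else if i < q (2 * j + 1) then X₀ i
          else y i) 0 (q (2 * j)) = seg (ev M X) 0 (q (2 * j)) :=
        seg_ev_congr M fun i _ hi => by rw [if_pos hi]
      have e2 : seg (ev M fun i => if i < q (2 * j) then X i else if i < q (2 * j + 1) then X₀ i
          else y i) (q (2 * j)) (q (2 * j + 1)) = seg (ev M X₀) (q (2 * j)) (q (2 * j + 1)) :=
        seg_ev_congr M fun i hi hi' => by rw [if_neg (by omega), if_pos hi']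
      have e3 : seg (ev M fun i => if i < q (2 * j) then X i else if i < q (2 * j + 1) then X₀ i
          else y i) (q (2 * j + 1)) (q (2 * j + 2)) =
          seg (ev M y) (q (2 * j + 1)) (q (2 * j + 2)) :=
        seg_ev_congr M fun i hi hi' => by rw [if_neg (by omega), if_neg (by omega)]
      have e4 : seg (ev M fun i => if i < q (2 * j) then X i else if i < q (2 * j + 1) then X₀ i
          else y i) (q (2 * j + 2)) n = seg (ev M y) (q (2 * j + 2)) n :=
        seg_ev_congr M fun i hi hi' => by rw [if_neg (by omega), if_neg (by omega)]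
      rw [e1, e2, e3, e4] at h2
      rw [← h2, Matrix.vecMul_vecMul, Matrix.vecMul_vecMul, ← Matrix.dotProduct_mulVec,
        Matrix.mulVec_mulVec]
      simp only [Matrix.mul_assoc]
    | zero => simp only [Matrix.zero_vecMul, zero_dotProduct]
    | add a b _ _ ha hb => rw [Matrix.add_vecMul, Matrix.add_vecMul, add_dotProduct, ha, hb, add_zero]
    | smul c a _ ha => rw [Matrix.smul_vecMul, Matrix.smul_vecMul, smul_dotProduct, ha, smul_zero]
  have hxG : x ᵥ* G ∈ LinearMap.range G.vecMulLinear := ⟨x, Matrix.vecMulLinear_apply _ _⟩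
  rw [hG] at hxG
  obtain ⟨z, hz, hzx⟩ := hxG
  rw [Matrix.vecMulLinear_apply] at hzx
  apply hy3
  have h5 := hz0 z hz
  rw [hzx, hzB] at h5
  rw [← h5, hv₀, ← seg_mul _ (Nat.zero_le (q (2 * j + 2))) hq3, ← seg_mul _ (Nat.zero_le _) hq2,
    Matrix.vecMul_vecMul, ← Matrix.dotProduct_mulVec, Matrix.mulVec_mulVec]

theorem exists_enum (s : Finset ℕ) : ∃ e : ℕ → ℕ, (∀ k < s.card, e k ∈ s) ∧
    ∀ k k', k < k' → k' < s.card → e k < e k' := by
  refine ⟨fun k => if h : k < s.card then s.orderEmbOfFin rfl ⟨k, h⟩ else 0, ?_, ?_⟩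
  · intro k hk
    dsimp only
    rw [dif_pos hk]
    exact Finset.orderEmbOfFin_mem _ _ _
  · intro k k' hkk hk'
    dsimp only
    rw [dif_pos (hkk.trans hk'), dif_pos hk']
    exact (s.orderEmbOfFin rfl).strictMono hkk

theorem reduce [Infinite F] (M : ℕ → Matrix κ κ (Polynomial F)) (n W : ℕ)
    (hW : Fintype.card κ ≤ W) (X₀ : ℕ → F)
    (u v : κ → F) (hmax : ∀ i j, 1 ≤ i → i ≤ j → j < n → ∀ X,
      (seg (ev M X) i j).rank ≤ (seg (ev M X₀) i j).rank)
    (s : Finset ℕ) (hs : s ⊆ Finset.range n) (hcard : Tb W < s.card) (X₁ : ℕ → F)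
    (hX₁ : ∀ l ∉ s, X₁ l = X₀ l) (h1 : val M n u v X₁ ≠ 0) :
    ∃ s' ⊂ s, ∃ X, (∀ l ∉ s', X l = X₀ l) ∧ val M n u v X ≠ 0 := by
  obtain ⟨e, he, hee⟩ := exists_enum s
  set m := 2 * W + 2 with hm
  set L := m ^ (W + 1) with hL
  have hTb : Tb W = L + 1 := rfl
  have hen : ∀ k < s.card, e k < n := fun k hk => Finset.mem_range.1 (hs (he k hk))
  have pmono : ∀ a b, a ≤ b → b ≤ L → e a + 1 ≤ e b + 1 := by
    intro a b hab hb
    rcases Nat.eq_or_lt_of_le hab with h | h
    · rw [h]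
    · have := hee a b h (by omega)
      omega
  obtain ⟨a', h, hh, hah, hblocks⟩ := exists_blocks m W (by omega)
    (fun a b => (seg (ev M X₀) (e a + 1) (e b + 1)).rank) L (by
      intro a a₁ b₁ b h1 h2 h3 h4
      rw [← seg_mul (ev M X₀) (pmono a b₁ (h1.trans h2) (by omega)) (pmono b₁ b h3 h4),
        ← seg_mul (ev M X₀) (pmono a a₁ h1 (by omega)) (pmono a₁ b₁ h2 (by omega))]
      exact rank_mul_mul_le _ _ _)
    (by
      intro a b
      exact (Matrix.rank_le_card_width _).trans hW) W 0 (by omega) (by omega)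
  have hlh : ∀ l ≤ m, l * h ≤ m * h := fun l hl => Nat.mul_le_mul_right _ hl
  have hlh1 : ∀ l, (l + 1) * h = l * h + h := fun l => by ring
  refine core M n W hW X₀ u v s X₁ hX₁ h1 (fun l => e (a' + l * h) + 1) ?_ ?_ ?_ ?_ ?_
  · intro l hl
    have h2 := hlh (l + 1) hl
    exact pmono _ _ (by rw [hlh1]; omega) (by omega)
  · have h2 := hen (a' + m * h) (by omega)
    exact h2
  · intro l hl
    have h2 := hlh (l + 1) hl
    have h3 := hlh1 l
    have h4 := hee (a' + l * h) (a' + l * h + 1) (by omega) (by omega)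
    have h5 := pmono (a' + l * h + 1) (a' + (l + 1) * h) (by omega) (by omega)
    exact ⟨e (a' + l * h + 1), he _ (by omega), by omega, by omega⟩
  · intro l hl
    have h2 := hblocks l hl
    rw [h2, Nat.zero_mul]
    rfl
  · intro l hl X
    have h2 := hlh (l + 1) hl
    have h3 := hlh1 l
    have h4 := hee (a' + (l + 1) * h) (a' + (l + 1) * h + 1) (by omega) (by omega)
    have h5 := hen (a' + (l + 1) * h + 1) (by omega)
    exact hmax _ _ (by omega) (pmono _ _ (by omega) (by omega)) (by omega) X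

/-- The modification lemma. -/
theorem modif [Infinite F] (M : ℕ → Matrix κ κ (Polynomial F)) (n W : ℕ)
    (hW : Fintype.card κ ≤ W) (X₀ : ℕ → F)
    (u v : κ → F) (hmax : ∀ i j, 1 ≤ i → i ≤ j → j < n → ∀ X,
      (seg (ev M X) i j).rank ≤ (seg (ev M X₀) i j).rank)
    (hne : ∃ X, val M n u v X ≠ 0) :
    ∃ s ⊆ Finset.range n, s.card ≤ Tb W ∧ ∃ X, (∀ l ∉ s, X l = X₀ l) ∧ val M n u v X ≠ 0 := by
  obtain ⟨X, hX⟩ := hne
  have h0 : val M n u v (fun i => if i < n then X i else X₀ i) ≠ 0 := by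
    have : seg (ev M fun i => if i < n then X i else X₀ i) 0 n = seg (ev M X) 0 n :=
      seg_ev_congr M fun i _ hi => by rw [if_pos hi]
    rw [val, this]
    exact hX
  have key : ∀ (k : ℕ) (s : Finset ℕ) (Y : ℕ → F), s.card ≤ k → s ⊆ Finset.range n →
      (∀ l ∉ s, Y l = X₀ l) → val M n u v Y ≠ 0 →
      ∃ s ⊆ Finset.range n, s.card ≤ Tb W ∧ ∃ X, (∀ l ∉ s, X l = X₀ l) ∧ val M n u v X ≠ 0 := by
    intro k
    induction k with
    | zero =>
      intro s Y hk hs hY hne
      exact ⟨s, hs, by omega, Y, hY, hne⟩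
    | succ k ih =>
      intro s Y hk hs hY hne
      by_cases hc : s.card ≤ Tb W
      · exact ⟨s, hs, hc, Y, hY, hne⟩
      · obtain ⟨s', hs', Y', hY', hne'⟩ := reduce M n W hW X₀ u v hmax s hs (by omega) Y hY hne
        have h2 := Finset.card_lt_card hs'
        exact ih s' Y' (by omega) (hs'.subset.trans hs) hY' hne'
  refine key n (Finset.range n) _ (by rw [Finset.card_range]) (fun _ h => h) ?_ h0
  intro l hl
  rw [if_neg]
  rwa [Finset.mem_range] at hl

end

end Pool.Agent.Helper4.RO
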