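import Mathlib
import Pool.Agent.Helper4.RO.Basic

/-!
# Tensor powers of matrices
-/

namespace Pool.Agent.Helper4.RO

set_option linter.unusedSectionVars false
set_option linter.unusedDecidableInType false

open Matrix

section

variable {R : Type*} [CommRing R] {l m n : Type*} [Fintype l] [Fintype m] [Fintype n]
  [DecidableEq l] [DecidableEq m] [DecidableEq n] {r : ℕ}

/-- The `r`-th tensor power. -/
def tp (r : ℕ) (A : Matrix m n R) : Matrix (Fin r → m) (Fin r → n) R :=
  Matrix.of fun I J => ∏ a, A (I a) (J a)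

theorem tp_apply (A : Matrix m n R) (I : Fin r → m) (J : Fin r → n) :
    tp r A I J = ∏ a, A (I a) (J a) := rfl

theorem tp_mul (A : Matrix l m R) (B : Matrix m n R) : tp r (A * B) = tp r A * tp r B := by
  ext I J
  rw [tp_apply, Matrix.mul_apply]
  simp only [Matrix.mul_apply, tp_apply]
  rw [Finset.prod_univ_sum, Fintype.piFinset_univ]
  exact Finset.sum_congr rfl fun K _ => Finset.prod_mul_distrib

theorem tp_one : tp r (1 : Matrix m m R) = 1 := by
  ext I J
  rw [tp_apply]
  by_cases h : I = J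
  · rw [h, Matrix.one_apply_eq]
    exact Finset.prod_eq_one fun a _ => Matrix.one_apply_eq _
  · rw [Matrix.one_apply_ne h]
    obtain ⟨a, ha⟩ := Function.ne_iff.1 h
    exact Finset.prod_eq_zero (Finset.mem_univ a) (Matrix.one_apply_ne ha)

theorem tp_map {S : Type*} [CommRing S] (φ : R →+* S) (A : Matrix m n R) :
    (tp r A).map φ = tp r (A.map φ) := by
  ext I J
  rw [Matrix.map_apply, tp_apply, tp_apply, map_prod]
  rfl

theorem tp_seg (A : ℕ → Matrix m m R) (i j : ℕ) : tp r (seg A i j) = seg (fun l => tp r (A l)) i j := by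
  unfold seg
  generalize j - i = k
  induction k with
  | zero => exact tp_one
  | succ k ih => rw [pr, pr, tp_mul, ih]

theorem det_eq_tp (E : Matrix (Fin r) m R) (T : Matrix m n R) (E' : Matrix n (Fin r) R) :
    (E * T * E').det = (tp r E (fun a => a)) ⬝ᵥ (tp r T *ᵥ
      fun J => ∑ σ : Equiv.Perm (Fin r), ((Equiv.Perm.sign σ : ℤ) : R) * tp r E' J σ) := by
  rw [← Matrix.det_transpose, Matrix.det_apply']
  have h : ∀ σ : Equiv.Perm (Fin r), ∏ i, (E * T * E')ᵀ (σ i) i =
      ∑ I, tp r E (fun a => a) I * ∑ J, tp r T I J * tp r E' J σ := by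
    intro σ
    have h1 : ∏ i, (E * T * E')ᵀ (σ i) i = tp r (E * (T * E')) (fun a => a) σ := by
      rw [tp_apply, Matrix.mul_assoc]
      rfl
    rw [h1, tp_mul, Matrix.mul_apply, tp_mul]
    rfl
  simp only [h]
  simp only [dotProduct, Matrix.mulVec]
  simp only [Finset.mul_sum]
  rw [Finset.sum_comm]
  refine Finset.sum_congr rfl fun I _ => ?_
  rw [Finset.sum_comm]
  refine Finset.sum_congr rfl fun J _ => ?_
  refine Finset.sum_congr rfl fun σ _ => ?_
  ring

end

theorem tp_rank_le {F : Type*} [Field F] {m : Type*} [Fintype m] [DecidableEq m] {r : ℕ}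
    (A B : Matrix m m F) (h : A.rank ≤ B.rank) : (tp r A).rank ≤ (tp r B).rank := by
  obtain ⟨P, Q, hPQ⟩ := exists_of_rank_le A B h
  rw [hPQ, tp_mul, tp_mul]
  exact rank_mul_mul_le _ _ _

theorem ev_tp {F : Type*} [Field F] {κ : Type*} [Fintype κ] [DecidableEq κ] {r : ℕ}
    (M : ℕ → Matrix κ κ (Polynomial F)) (X : ℕ → F) (i j : ℕ) :
    seg (ev (fun l => tp r (M l)) X) i j = tp r (seg (ev M X) i j) := by
  rw [tp_seg]
  apply seg_congr
  intro l _ _
  exact tp_map (Polynomial.evalRingHom (X l)) (M l)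

end Pool.Agent.Helper4.RO
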