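import Mathlib
import Pool.Agent.Helper4.RO.Modif
import Pool.Agent.Helper4.RO.Tensor

/-!
# Points at which all intervals of given chains have maximal rank
-/

namespace Pool.Agent.Helper4.RO

set_option linter.unusedSectionVars false
set_option linter.unusedDecidableInType false

open Matrix

section

variable {F : Type*} [Field F]

/-- Increasing families of sets of points, closed under few modifications of coordinates. -/
structure IsLevels (N : ℕ) (S : ℕ → Set (ℕ → F)) : Prop where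
  joined : ∀ k, Joined (S k)
  modif : ∀ k t x, x ∈ S k → ∀ s ⊆ Finset.range N, s.card ≤ t → ∀ x', (∀ i ∉ s, x' i = x i) →
    x' ∈ S (k + t)
  nonempty₀ : (S 0).Nonempty
  const : ∀ i < N, ∀ c : F, ∃ x ∈ S 0, x i = c

theorem IsLevels.mono {N : ℕ} {S : ℕ → Set (ℕ → F)} (hS : IsLevels N S) {k k' : ℕ} (h : k ≤ k')
    {x : ℕ → F} (hx : x ∈ S k) : x ∈ S k' := by
  obtain ⟨t, rfl⟩ := Nat.exists_eq_add_of_le h
  exact hS.modif k t x hx ∅ (Finset.empty_subset _) (Nat.zero_le _) x fun _ _ => rfl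

theorem IsLevels.nonempty {N : ℕ} {S : ℕ → Set (ℕ → F)} (hS : IsLevels N S) (k : ℕ) :
    (S k).Nonempty := by
  obtain ⟨x, hx⟩ := hS.nonempty₀
  exact ⟨x, hS.mono (Nat.zero_le k) hx⟩

/-- The orders: the first `n` positions read different variables below `N`. -/
structure IsOrder (N n : ℕ) (v : ℕ → ℕ) : Prop where
  lt : ∀ l < n, v l < N
  inj : ∀ l < n, ∀ l' < n, v l = v l' → l = l'

theorem IsOrder.shift {N n : ℕ} {v : ℕ → ℕ} (hv : IsOrder N n v) {i j : ℕ} (hj : j ≤ n) :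
    IsOrder N (j - i) fun l => v (i + l) where
  lt l hl := hv.lt _ (by omega)
  inj l hl l' hl' h := by
    have := hv.inj _ (by omega) _ (by omega) h
    omega

/-- Modifications of positions are modifications of variables. -/
theorem IsOrder.modif {N n : ℕ} {v : ℕ → ℕ} (hv : IsOrder N n v) (x₀ : ℕ → F) (s : Finset ℕ)
    (hs : s ⊆ Finset.range n) (X : ℕ → F) (hX : ∀ l ∉ s, X l = x₀ (v l)) :
    ∃ x : ℕ → F, (∀ i ∉ s.image v, x i = x₀ i) ∧ (∀ l < n, x (v l) = X l) ∧
      s.image v ⊆ Finset.range N ∧ (s.image v).card ≤ s.card := by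
  classical
  refine ⟨fun i => if h : ∃ l ∈ s, v l = i then X h.choose else x₀ i, ?_, ?_, ?_,
    Finset.card_image_le⟩
  · intro i hi
    have h : ¬ ∃ l ∈ s, v l = i := fun ⟨l, hl, hli⟩ => hi (Finset.mem_image.2 ⟨l, hl, hli⟩)
    simp only [dif_neg h]
  · intro l hl
    by_cases h : ∃ l' ∈ s, v l' = v l
    · simp only [dif_pos h]
      congr 1
      exact hv.inj _ (Finset.mem_range.1 (hs h.choose_spec.1)) _ hl h.choose_spec.2
    · simp only [dif_neg h]
      rw [hX l fun hl' => h ⟨l, hl', rfl⟩]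
  · intro i hi
    obtain ⟨l, hl, rfl⟩ := Finset.mem_image.1 hi
    exact Finset.mem_range.2 (hv.lt l (Finset.mem_range.1 (hs hl)))

variable {κ : Type*} [Fintype κ] [DecidableEq κ]

/-- The product of the layers `i, ..., j - 1` at a point. -/
def segx (M : ℕ → Matrix κ κ (Polynomial F)) (v : ℕ → ℕ) (x : ℕ → F) (i j : ℕ) : Matrix κ κ F :=
  seg (ev M fun l => x (v l)) i j

theorem MIsPoly.segx (M : ℕ → Matrix κ κ (Polynomial F)) (v : ℕ → ℕ) (i j : ℕ) :
    MIsPoly fun x : ℕ → F => RO.segx M v x i j := MIsPoly.seg_ev M v i j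

theorem segx_mul (M : ℕ → Matrix κ κ (Polynomial F)) (v : ℕ → ℕ) (x : ℕ → F) {i j k : ℕ}
    (h : i ≤ j) (h' : j ≤ k) : segx M v x i j * segx M v x j k = segx M v x i k := seg_mul _ h h'

theorem segx_shift (M : ℕ → Matrix κ κ (Polynomial F)) (v : ℕ → ℕ) (x : ℕ → F) (i j : ℕ) :
    segx M v x i j = segx (fun l => M (i + l)) (fun l => v (i + l)) x 0 (j - i) := by
  rw [segx, seg_shift]
  rfl

theorem segx_congr (M : ℕ → Matrix κ κ (Polynomial F)) (v : ℕ → ℕ) {x y : ℕ → F} {i j : ℕ}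
    (h : ∀ l, i ≤ l → l < j → x (v l) = y (v l)) : segx M v x i j = segx M v y i j :=
  seg_ev_congr M fun l h1 h2 => h l h1 h2

/-- Maximal rank is attained. -/
theorem exists_max {α : Type*} [Nonempty α] (f : α → ℕ) (W : ℕ) (hf : ∀ x, f x ≤ W) :
    ∃ x, ∀ y, f y ≤ f x := by
  by_contra hcon
  push Not at hcon
  have h : ∀ k, ∃ x, k ≤ f x := by
    intro k
    induction k with
    | zero => exact ⟨Classical.arbitrary α, Nat.zero_le _⟩
    | succ k ih =>
      obtain ⟨x, hx⟩ := ih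
      obtain ⟨y, hy⟩ := hcon x
      exact ⟨y, by omega⟩
  obtain ⟨x, hx⟩ := h (W + 1)
  have := hf x
  omega

/-- All nonzero `r × r` determinants are nonzero somewhere on `S`. -/
def Hits (N : ℕ) (κ : Type*) [Fintype κ] [DecidableEq κ] (S : Set (ℕ → F)) (r : ℕ) : Prop :=
  ∀ (n : ℕ) (v : ℕ → ℕ) (M : ℕ → Matrix κ κ (Polynomial F)) (E : Matrix (Fin r) κ F)
    (E' : Matrix κ (Fin r) F), IsOrder N n v → (∃ x, (E * segx M v x 0 n * E').det ≠ 0) →
      ∃ x ∈ S, (E * segx M v x 0 n * E').det ≠ 0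

/-- Points of maximal rank on all given intervals. -/
theorem exists_max_point [Infinite F] {N : ℕ} {S : ℕ → Set (ℕ → F)} {k r : ℕ}
    (hrec : ∀ r', r < r' → Hits N κ (S k) r') {n : ℕ} {v : ℕ → ℕ} (hv : IsOrder N n v)
    (M : ℕ → Matrix κ κ (Polynomial F)) {i j : ℕ} (hj : j ≤ n)
    (hbig : ∃ x, r < (segx M v x i j).rank) :
    ∃ g : (ℕ → F) → F, IsPoly g ∧ (∃ x ∈ S k, g x ≠ 0) ∧
      ∀ x₀, g x₀ ≠ 0 → ∀ x, (segx M v x i j).rank ≤ (segx M v x₀ i j).rank := by
  obtain ⟨y, hy⟩ := exists_max (fun x : ℕ → F => (segx M v x i j).rank) (Fintype.card κ)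
    fun x => Matrix.rank_le_card_width _
  obtain ⟨x₁, hx₁⟩ := hbig
  obtain ⟨P, Q, hPQ⟩ := exists_mul_eq_one (segx M v y i j) le_rfl
  refine ⟨fun x => (P * segx M v x i j * Q).det,
    (((MIsPoly.const P).mul (MIsPoly.segx M v i j)).mul (MIsPoly.const Q)).det, ?_, ?_⟩
  · obtain ⟨x, hx, h⟩ := hrec _ (hx₁.trans_le (hy x₁)) (j - i) (fun l => v (i + l))
      (fun l => M (i + l)) P Q (hv.shift hj) ⟨y, by
        rw [← segx_shift, hPQ, Matrix.det_one]
        exact one_ne_zero⟩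
    rw [← segx_shift] at h
    exact ⟨x, hx, h⟩
  · intro x₀ hx₀ x
    exact (hy x).trans (le_rank_of_det_ne_zero _ _ _ hx₀)

theorem hits_step [Infinite F] {N : ℕ} {S : ℕ → Set (ℕ → F)} (hS : IsLevels N S) {k r : ℕ}
    (hrec : ∀ r', r < r' → Hits N κ (S k) r') :
    Hits N κ (S (k + Tb (Fintype.card κ ^ r))) r := by
  classical
  intro n
  induction n using Nat.strong_induction_on with
  | _ n ih =>
  intro v M E E' hv hne
  set S' := S (k + Tb (Fintype.card κ ^ r)) with hS'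
  obtain ⟨x, hx⟩ := hne
  rcases Nat.lt_or_ge n 2 with hn | hn
  · -- at most one layer
    obtain ⟨y, hy, hyc⟩ : ∃ y ∈ S 0, ∀ l < n, y (v l) = x (v l) := by
      rcases Nat.eq_zero_or_pos n with h0 | h0
      · obtain ⟨y, hy⟩ := hS.nonempty₀
        exact ⟨y, hy, fun l hl => by omega⟩
      · obtain ⟨y, hy, hyc⟩ := hS.const _ (hv.lt 0 h0) (x (v 0))
        refine ⟨y, hy, fun l hl => ?_⟩
        have : l = 0 := by omega
        rw [this]
        exact hyc
    refine ⟨y, hS.mono (Nat.zero_le _) hy, ?_⟩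
    have h : segx M v y 0 n = segx M v x 0 n := segx_congr M v fun l _ hl => hyc l hl
    rw [h]
    exact hx
  by_cases hA : ∃ i j, 1 ≤ i ∧ i ≤ j ∧ j < n ∧ ∀ x, (segx M v x i j).rank ≤ r
  · obtain ⟨i, j, hi, hij, hj, hr⟩ := hA
    have h0 : ∀ z : ℕ → F, segx M v z 0 n = segx M v z 0 i * segx M v z i j * segx M v z j n := by
      intro z
      rw [segx_mul _ _ _ (Nat.zero_le i) hij, segx_mul _ _ _ (Nat.zero_le j) hj.le]
    have hrk : r ≤ (segx M v x i j).rank := by
      have h1 := le_rank_of_det_ne_zero _ _ _ hx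
      rw [h0] at h1
      exact h1.trans (rank_mul_mul_le _ _ _)
    obtain ⟨P, Q, hPQ⟩ := exists_mul_eq_one _ hrk
    have hex : ∀ z : ℕ → F, (E * segx M v z 0 n * E').det * (P * segx M v z i j * Q).det =
        (E * segx M v z 0 j * Q).det * (P * segx M v z i n * E').det := by
      intro z
      have h1 := det_exchange (segx M v z i j) (hr z) (E * segx M v z 0 i) P
        (segx M v z j n * E') Q
      rw [h0, ← segx_mul M v z (Nat.zero_le i) hij, ← segx_mul M v z hij hj.le]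
      simp only [Matrix.mul_assoc] at h1 ⊢
      exact h1
    have h2 : (E * segx M v x 0 j * Q).det * (P * segx M v x i n * E').det ≠ 0 := by
      rw [← hex, hPQ, Matrix.det_one, mul_one]
      exact hx
    obtain ⟨x₁, hx₁, h₁⟩ := ih j hj v M E Q (by
      have := hv.shift (i := 0) hj.le
      simpa using this) ⟨x, left_ne_zero_of_mul h2⟩
    obtain ⟨x₂, hx₂, h₂⟩ := ih (n - i) (by omega) (fun l => v (i + l)) (fun l => M (i + l)) P E'
      (hv.shift le_rfl) ⟨x, by
        rw [← segx_shift]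
        exact right_ne_zero_of_mul h2⟩
    rw [← segx_shift] at h₂
    obtain ⟨x₃, hx₃, h₃⟩ := (hS.joined (k + Tb (Fintype.card κ ^ r))).mul
      (((MIsPoly.const E).mul (MIsPoly.segx M v 0 j)).mul (MIsPoly.const Q)).det
      (((MIsPoly.const P).mul (MIsPoly.segx M v i n)).mul (MIsPoly.const E')).det
      ⟨x₁, hx₁, h₁⟩ ⟨x₂, hx₂, h₂⟩
    rw [← hex] at h₃
    exact ⟨x₃, hx₃, left_ne_zero_of_mul h₃⟩
  · push Not at hA
    -- a point with maximal ranks
    have hg : ∀ p ∈ (Finset.range n ×ˢ Finset.range n).filter fun p => 1 ≤ p.1 ∧ p.1 ≤ p.2,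
        ∃ g : (ℕ → F) → F, IsPoly g ∧ (∃ x ∈ S k, g x ≠ 0) ∧
          ∀ x₀, g x₀ ≠ 0 → ∀ x, (segx M v x p.1 p.2).rank ≤ (segx M v x₀ p.1 p.2).rank := by
      intro p hp
      rw [Finset.mem_filter, Finset.mem_product, Finset.mem_range, Finset.mem_range] at hp
      exact exists_max_point hrec hv M hp.1.2.le (hA p.1 p.2 hp.2.1 hp.2.2 hp.1.2)
    choose! g hg1 hg2 hg3 using hg
    obtain ⟨x₀, hx₀, h₀⟩ := (hS.joined k).prod (hS.nonempty k) _ g hg1 hg2
    have hmax : ∀ i j, 1 ≤ i → i ≤ j → j < n → ∀ x, (segx M v x i j).rank ≤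
        (segx M v x₀ i j).rank := by
      intro i j hi hij hj y
      have hp : ((i, j) : ℕ × ℕ) ∈ (Finset.range n ×ˢ Finset.range n).filter
          fun p => 1 ≤ p.1 ∧ p.1 ≤ p.2 := by
        rw [Finset.mem_filter, Finset.mem_product, Finset.mem_range, Finset.mem_range]
        exact ⟨⟨lt_of_le_of_lt hij hj, hj⟩, hi, hij⟩
      exact hg3 _ hp x₀ (h₀ _ hp) y
    -- the tensor power
    have hval : ∀ X : ℕ → F, val (fun l => tp r (M l)) n (tp r E (fun a => a))
        (fun J => ∑ σ : Equiv.Perm (Fin r), ((Equiv.Perm.sign σ : ℤ) : F) * tp r E' J σ) X =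
        (E * seg (ev M X) 0 n * E').det := by
      intro X
      rw [val, ev_tp, ← det_eq_tp]
    obtain ⟨s, hs, hsc, X, hX, hX'⟩ := modif (fun l => tp r (M l)) n (Fintype.card κ ^ r)
      (by rw [Fintype.card_fun, Fintype.card_fin]) (fun l => x₀ (v l)) (tp r E (fun a => a))
      (fun J => ∑ σ : Equiv.Perm (Fin r), ((Equiv.Perm.sign σ : ℤ) : F) * tp r E' J σ)
      (by
        intro i j hi hij hj X
        rw [ev_tp, ev_tp]
        apply tp_rank_le
        obtain ⟨x', -, hx', -, -⟩ := hv.modif x₀ (Finset.range n) (fun _ h => h)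
          (fun l => if l < n then X l else x₀ (v l)) (by
            intro l hl
            rw [if_neg (by rwa [Finset.mem_range] at hl)])
        have h1 := hmax i j hi hij hj x'
        have h2 : segx M v x' i j = seg (ev M X) i j := seg_ev_congr M fun l _ h => by
          rw [hx' l (by omega), if_pos (by omega)]
        rw [h2] at h1
        exact h1)
      ⟨fun l => x (v l), by
        rw [hval]
        exact hx⟩
    rw [hval] at hX'
    obtain ⟨x', hx'1, hx'2, hx'3, hx'4⟩ := hv.modif x₀ s hs X hX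
    refine ⟨x', hS.modif k _ x₀ hx₀ _ hx'3 (hx'4.trans hsc) x' hx'1, ?_⟩
    have h2 : segx M v x' 0 n = seg (ev M X) 0 n := seg_ev_congr M fun l _ h => hx'2 l h
    rw [h2]
    exact hX'

/-- The levels after `d` steps. -/
def Kd (W : ℕ) : ℕ → ℕ
  | 0 => 0
  | d + 1 => Kd W d + Tb (W ^ (W - d))

theorem Kd_mono (W : ℕ) {d d' : ℕ} (h : d ≤ d') : Kd W d ≤ Kd W d' := by
  induction d', h using Nat.le_induction with
  | base => exact le_rfl
  | succ b _ ih => exact ih.trans (Nat.le_add_right _ _)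

/-- The level at which points of maximal rank exist: `∑ r = 1, ..., W` of `Tb (W ^ r)`. -/
def lev (W : ℕ) : ℕ := ∑ r ∈ Finset.range W, Tb (W ^ (r + 1))

theorem Kd_eq (W : ℕ) : ∀ d ≤ W, Kd W d = ∑ r ∈ Finset.range d, Tb (W ^ (W - r)) := by
  intro d
  induction d with
  | zero => intro _; rfl
  | succ d ih => intro hd; rw [Kd, ih (by omega), Finset.sum_range_succ]

theorem Kd_self (W : ℕ) : Kd W W = lev W := by
  rw [Kd_eq W W le_rfl, lev, ← Finset.sum_range_reflect]
  refine Finset.sum_congr rfl fun r hr => ?_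
  rw [Finset.mem_range] at hr
  congr 2
  omega

theorem hits_Kd [Infinite F] {N : ℕ} {S : ℕ → Set (ℕ → F)} (hS : IsLevels N S) :
    ∀ d ≤ Fintype.card κ, ∀ r, Fintype.card κ < r + d → Hits N κ (S (Kd (Fintype.card κ) d)) r := by
  intro d
  induction d with
  | zero =>
    rintro - r hr n v M E E' hv ⟨x, hx⟩
    exfalso
    have h1 := le_rank_of_det_ne_zero _ _ _ hx
    have h2 := Matrix.rank_le_card_width (segx M v x 0 n)
    omega
  | succ d ih =>
    intro hd r hr
    by_cases h : Fintype.card κ < r + d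
    · intro n v M E E' hv hne
      obtain ⟨x, hx, h'⟩ := ih (by omega) r h n v M E E' hv hne
      exact ⟨x, hS.mono (Kd_mono _ (Nat.le_succ d)) hx, h'⟩
    · have hrd : Fintype.card κ - d = r := by omega
      rw [Kd, hrd]
      exact hits_step hS fun r' hr' => ih (by omega) r' (by omega)

/-- All determinants are hit at level `lev (card κ)`. -/
theorem hits_lev [Infinite F] {N : ℕ} {S : ℕ → Set (ℕ → F)} (hS : IsLevels N S) (r : ℕ) :
    Hits N κ (S (lev (Fintype.card κ))) r := by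
  rcases Nat.eq_zero_or_pos r with rfl | hr
  · intro n v M E E' hv hne
    obtain ⟨x, hx⟩ := hS.nonempty (lev (Fintype.card κ))
    refine ⟨x, hx, ?_⟩
    rw [Matrix.det_isEmpty]
    exact one_ne_zero
  · rw [← Kd_self]
    exact hits_Kd hS _ le_rfl r (by omega)

/-- Points at which all intervals of a chain have maximal rank. -/
def Good (n : ℕ) (v : ℕ → ℕ) (M : ℕ → Matrix κ κ (Polynomial F)) (x₀ : ℕ → F) : Prop :=
  ∀ i j, i ≤ j → j ≤ n → ∀ x : ℕ → F, (segx M v x i j).rank ≤ (segx M v x₀ i j).rank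

/-- Goodness is an open condition. -/
theorem Good.exists_poly {n : ℕ} {v : ℕ → ℕ} {M : ℕ → Matrix κ κ (Polynomial F)} {x₀ : ℕ → F}
    (h : Good n v M x₀) : ∃ g : (ℕ → F) → F, IsPoly g ∧ g x₀ ≠ 0 ∧ ∀ y, g y ≠ 0 → Good n v M y := by
  classical
  have h1 : ∀ p : ℕ × ℕ, ∃ g : (ℕ → F) → F, IsPoly g ∧ g x₀ ≠ 0 ∧
      ∀ y, g y ≠ 0 → (segx M v x₀ p.1 p.2).rank ≤ (segx M v y p.1 p.2).rank := by
    intro p
    obtain ⟨P, Q, hPQ⟩ := exists_mul_eq_one (segx M v x₀ p.1 p.2) le_rfl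
    refine ⟨fun x => (P * segx M v x p.1 p.2 * Q).det,
      (((MIsPoly.const P).mul (MIsPoly.segx M v _ _)).mul (MIsPoly.const Q)).det, ?_, ?_⟩
    · simp only [hPQ, Matrix.det_one]
      exact one_ne_zero
    · intro y hy
      exact le_rank_of_det_ne_zero _ _ _ hy
  choose g hg1 hg2 hg3 using h1
  refine ⟨fun x => ∏ p ∈ Finset.range (n + 1) ×ˢ Finset.range (n + 1), g p x,
    IsPoly.prod _ fun p _ => hg1 p, Finset.prod_ne_zero_iff.2 fun p _ => hg2 p, ?_⟩
  intro y hy i j hij hj x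
  rw [Finset.prod_ne_zero_iff] at hy
  exact (h i j hij hj x).trans (hg3 (i, j) y (hy (i, j) (Finset.mem_product.2
    ⟨Finset.mem_range.2 (by omega), Finset.mem_range.2 (by omega)⟩)))

end

end Pool.Agent.Helper4.RO
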