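import Mathlib
import Pool.Agent.Helper4.RO.Level

/-!
# Sums of chains in different orders
-/

namespace Pool.Agent.Helper4.RO

set_option linter.unusedSectionVars false
set_option linter.unusedDecidableInType false

open Matrix

/-- Maps with a pseudo-inverse. -/
theorem exists_pseudo {F : Type*} [Field F] {κ : Type*} [Fintype κ] [DecidableEq κ]
    (V : Matrix κ κ F) : ∃ G : Matrix κ κ F, ∀ y : κ → F,
      y ∈ Submodule.span F (Set.range fun k => V k) → (y ᵥ* G) ᵥ* V = y := by
  obtain ⟨g, hg⟩ := LinearMap.exists_rightInverse_of_surjective V.vecMulLinear.rangeRestrict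
    (LinearMap.range_rangeRestrict _)
  obtain ⟨π, hπ⟩ := LinearMap.exists_leftInverse_of_injective
    (LinearMap.range V.vecMulLinear).subtype (LinearMap.ker_eq_bot.2 (Submodule.injective_subtype _))
  refine ⟨(LinearMap.toMatrix' (g ∘ₗ π))ᵀ, ?_⟩
  intro y hy
  have hy' : y ∈ LinearMap.range V.vecMulLinear := by
    rw [range_vecMulLinear]
    exact hy
  rw [Matrix.vecMul_transpose, ← Matrix.toLin'_apply, Matrix.toLin'_toMatrix']
  have h1 := LinearMap.congr_fun hg (π y)
  have h2 := LinearMap.congr_fun hπ ⟨y, hy'⟩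
  simp only [LinearMap.comp_apply, LinearMap.id_apply, Submodule.subtype_apply] at h1 h2
  rw [h2] at h1
  have h3 := congrArg Subtype.val h1
  rw [LinearMap.comp_apply, h2]
  exact h3

section

variable {F : Type*} [Field F]

/-- The point with the coordinates of `y` on `J` and of `x` elsewhere. -/
def mix (J : Finset ℕ) (y x : ℕ → F) (i : ℕ) : F := if i ∈ J then y i else x i

/-- The variables at the first `j` positions. -/
def pre (v : ℕ → ℕ) (j : ℕ) : Finset ℕ := (Finset.range j).image v

theorem mem_pre {v : ℕ → ℕ} {j l : ℕ} (h : l < j) : v l ∈ pre v j :=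
  Finset.mem_image_of_mem v (Finset.mem_range.2 h)

theorem not_mem_pre {N n : ℕ} {v : ℕ → ℕ} (hv : IsOrder N n v) {j l : ℕ} (hj : j ≤ l) (hl : l < n) :
    v l ∉ pre v j := by
  intro h
  obtain ⟨l', hl', h'⟩ := Finset.mem_image.1 h
  rw [Finset.mem_range] at hl'
  have := hv.inj _ (by omega) _ hl h'
  omega

theorem pre_full {n : ℕ} {v : ℕ → ℕ} (hv : IsOrder n n v) : pre v n = Finset.range n := by
  apply Finset.eq_of_subset_of_card_le
  · intro i hi
    obtain ⟨l, hl, rfl⟩ := Finset.mem_image.1 hi
    exact Finset.mem_range.2 (hv.lt l (Finset.mem_range.1 hl))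
  · rw [pre, Finset.card_image_of_injOn, Finset.card_range]
    intro a ha b hb h
    rw [Finset.coe_range, Set.mem_Iio] at ha hb
    exact hv.inj a ha b hb h

theorem IsOrder.lift {N n : ℕ} {v : ℕ → ℕ} (hv : IsOrder N n v) (X : ℕ → F) :
    ∃ x : ℕ → F, ∀ l < n, x (v l) = X l := by
  classical
  obtain ⟨x, -, hx, -⟩ := hv.modif (fun _ => (0 : F)) (Finset.range n) (fun _ h => h)
    (fun l => if l < n then X l else 0) (by
      intro l hl
      rw [if_neg (by rwa [Finset.mem_range] at hl)])
  exact ⟨x, fun l hl => by rw [hx l hl, if_pos hl]⟩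

variable {κ : Type*} [Fintype κ] [DecidableEq κ]

/-- A read-once chain. -/
structure Chain (F : Type*) [Field F] (κ : Type*) where
  v : ℕ → ℕ
  M : ℕ → Matrix κ κ (Polynomial F)
  u : κ → F
  w : κ → F

/-- The value of a chain. -/
def Chain.val (n : ℕ) (C : Chain F κ) (x : ℕ → F) : F := C.u ⬝ᵥ (segx C.M C.v x 0 n *ᵥ C.w)

/-- The prefix vectors. -/
def Chain.vec (C : Chain F κ) (j : ℕ) (x : ℕ → F) : κ → F := C.u ᵥ* segx C.M C.v x 0 j

theorem Chain.val_eq {n : ℕ} (C : Chain F κ) {j : ℕ} (hj : j ≤ n) (x : ℕ → F) :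
    C.val n x = C.vec j x ⬝ᵥ (segx C.M C.v x j n *ᵥ C.w) := by
  rw [Chain.val, Chain.vec, ← segx_mul _ _ _ (Nat.zero_le j) hj, ← Matrix.dotProduct_mulVec,
    Matrix.mulVec_mulVec]

theorem vec_mix (C : Chain F κ) (j : ℕ) (y x : ℕ → F) :
    C.vec j (mix (pre C.v j) y x) = C.vec j y := by
  rw [Chain.vec, Chain.vec, segx_congr C.M C.v (y := y)]
  intro l _ hl
  rw [mix, if_pos (mem_pre hl)]

theorem segx_mix {N n : ℕ} (C : Chain F κ) (hv : IsOrder N n C.v) (j : ℕ) (y x : ℕ → F) :
    segx C.M C.v (mix (pre C.v j) y x) j n = segx C.M C.v x j n := by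
  apply segx_congr
  intro l hj hl
  rw [mix, if_neg (not_mem_pre hv hj hl)]

/-- A spanning family of near good points. -/
theorem exists_family [Infinite F] {n c : ℕ} (C : Fin c → Chain F κ) (b₀ : Fin c)
    (hv : IsOrder n n (C b₀).v) (x₀ : ℕ → F) (hgood : ∀ b, Good n (C b).v (C b).M x₀) {j : ℕ}
    (hj : j ≤ n) : ∃ β : κ → ℕ → F,
      (∀ k, ∃ s ⊆ pre (C b₀).v j, s.card ≤ Tb (Fintype.card κ) ∧ ∀ i ∉ s, β k i = x₀ i) ∧
      (∀ k b, Good n (C b).v (C b).M (β k)) ∧
      ∀ x, (C b₀).vec j x ∈ Submodule.span F (Set.range fun k => (C b₀).vec j (β k)) := by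
  classical
  set Z : Set (ℕ → F) := {y | (∃ s ⊆ pre (C b₀).v j, s.card ≤ Tb (Fintype.card κ) ∧
    ∀ i ∉ s, y i = x₀ i) ∧ ∀ b, Good n (C b).v (C b).M y} with hZ
  have h1 : ∀ x, (C b₀).vec j x ∈ Submodule.span F (Set.range fun y : Z => (C b₀).vec j y) := by
    intro x
    by_contra hx
    obtain ⟨f, hfx, hf⟩ := Submodule.exists_le_ker_of_notMem hx
    have hφ : ∀ y : κ → F, f y = y ⬝ᵥ fun i => f fun j => if i = j then 1 else 0 := by
      intro y
      rw [LinearMap.pi_apply_eq_sum_univ]
      rfl
    set φ : κ → F := fun i => f fun j => if i = j then 1 else 0 with hφd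
    obtain ⟨s, hs, hsc, X, hX, hX'⟩ := modif (C b₀).M j (Fintype.card κ) le_rfl
      (fun l => x₀ ((C b₀).v l)) (C b₀).u φ (by
        intro i i' _ hii' hi' X
        obtain ⟨x', hx'⟩ := hv.lift X
        have h2 := hgood b₀ i i' hii' (by omega) x'
        have h3 : segx (C b₀).M (C b₀).v x' i i' = seg (ev (C b₀).M X) i i' :=
          seg_ev_congr _ fun l _ h => hx' l (by omega)
        rw [h3] at h2
        exact h2) ⟨fun l => x ((C b₀).v l), by
        rw [hφ, Chain.vec, ← Matrix.dotProduct_mulVec] at hfx
        exact hfx⟩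
    obtain ⟨x', hx'1, hx'2, -, hx'4⟩ := hv.modif x₀ s
      (hs.trans (Finset.range_subset_range.2 hj)) X hX
    have hgx' : (C b₀).u ⬝ᵥ (segx (C b₀).M (C b₀).v x' 0 j *ᵥ φ) ≠ 0 := by
      have h3 : segx (C b₀).M (C b₀).v x' 0 j = seg (ev (C b₀).M X) 0 j :=
        seg_ev_congr _ fun l _ h => hx'2 l (by omega)
      rw [h3]
      exact hX'
    -- the goodness polynomials
    choose g hg1 hg2 hg3 using fun b => (hgood b).exists_poly
    have hJ : Joined {x : ℕ → F | ∀ i ∈ {i | i ∉ s.image (C b₀).v}, x i = x₀ i} := joined_agree x₀ _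
    obtain ⟨y, hy, hy'⟩ := hJ.mul (IsPoly.prod Finset.univ fun b _ => hg1 b)
      ((MIsPoly.segx (C b₀).M (C b₀).v 0 j).dot (C b₀).u φ)
      ⟨x₀, fun _ _ => rfl, Finset.prod_ne_zero_iff.2 fun b _ => hg2 b⟩ ⟨x', hx'1, hgx'⟩
    have hyg := Finset.prod_ne_zero_iff.1 (left_ne_zero_of_mul hy')
    have hyZ : y ∈ Z := by
      refine ⟨⟨s.image (C b₀).v, Finset.image_subset_image hs, hx'4.trans hsc, hy⟩, ?_⟩
      intro b
      exact hg3 b y (hyg b (Finset.mem_univ b))
    have h4 : f ((C b₀).vec j y) = 0 := hf (Submodule.subset_span ⟨⟨y, hyZ⟩, rfl⟩)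
    rw [hφ, Chain.vec, ← Matrix.dotProduct_mulVec] at h4
    exact right_ne_zero_of_mul hy' h4
  obtain ⟨ι, a, -, ha, hli⟩ := exists_linearIndependent' F fun y : Z => (C b₀).vec j y
  have hfin : Finite ι := hli.finite
  have := Fintype.ofFinite ι
  have hcard : Fintype.card ι ≤ Fintype.card κ := by
    have := hli.fintype_card_le_finrank
    rwa [Module.finrank_fintype_fun_eq_card] at this
  obtain ⟨e⟩ := Function.Embedding.nonempty_of_card_le hcard
  have hx₀ : x₀ ∈ Z := ⟨⟨∅, Finset.empty_subset _, Nat.zero_le _, fun _ _ => rfl⟩, hgood⟩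
  refine ⟨fun k => (Function.extend e a (fun _ => ⟨x₀, hx₀⟩) k : Z), ?_, ?_, ?_⟩
  · intro k
    exact (Function.extend e a (fun _ => ⟨x₀, hx₀⟩) k : Z).2.1
  · intro k b
    exact (Function.extend e a (fun _ => ⟨x₀, hx₀⟩) k : Z).2.2 b
  · intro x
    have h2 := h1 x
    rw [← ha] at h2
    refine Submodule.span_mono ?_ h2
    rintro _ ⟨i, rfl⟩
    refine ⟨e i, ?_⟩
    simp only [Function.comp_apply]
    rw [e.injective.extend_apply]

/-! ### Direct sums of restrictions -/

/-- The direct sum over `e` of the layers, where the variables in `J` take the values of `p e`. -/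
noncomputable def blockM {o : Type*} [DecidableEq o] (M : ℕ → Matrix κ κ (Polynomial F))
    (v : ℕ → ℕ) (J : Finset ℕ) (p : o → ℕ → F) (l : ℕ) : Matrix (κ × o) (κ × o) (Polynomial F) :=
  Matrix.blockDiagonal fun e => if v l ∈ J then
    (M l).map fun q => Polynomial.C (q.eval (p e (v l))) else M l

theorem segx_block {o : Type*} [Fintype o] [DecidableEq o] (M : ℕ → Matrix κ κ (Polynomial F))
    (v : ℕ → ℕ) (J : Finset ℕ) (p : o → ℕ → F) (x : ℕ → F) (i j : ℕ) :
    segx (blockM M v J p) v x i j = Matrix.blockDiagonal fun e => segx M v (mix J (p e) x) i j := by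
  unfold segx seg
  generalize j - i = k
  induction k with
  | zero =>
    simp only [pr]
    exact Matrix.blockDiagonal_one.symm
  | succ k ih =>
    simp only [pr]
    rw [Matrix.blockDiagonal_mul, ih]
    congr 1
    rw [ev, blockM, Matrix.blockDiagonal_map _ _ Polynomial.eval_zero]
    congr 1
    funext e
    rw [ev, mix]
    split_ifs with h
    · ext a b
      simp only [Matrix.map_apply, Polynomial.eval_C]
    · rfl

theorem rank_blockDiagonal_le {o : Type*} [Fintype o] [DecidableEq o] (A B : o → Matrix κ κ F)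
    (h : ∀ e, (A e).rank ≤ (B e).rank) :
    (Matrix.blockDiagonal A).rank ≤ (Matrix.blockDiagonal B).rank := by
  choose P Q hPQ using fun e => exists_of_rank_le (A e) (B e) (h e)
  have h1 : Matrix.blockDiagonal A =
      Matrix.blockDiagonal P * Matrix.blockDiagonal B * Matrix.blockDiagonal Q := by
    rw [← Matrix.blockDiagonal_mul, ← Matrix.blockDiagonal_mul]
    congr 1
    funext e
    exact hPQ e
  rw [h1]
  exact rank_mul_mul_le _ _ _

theorem dot_blockDiagonal {o : Type*} [Fintype o] [DecidableEq o] (A : o → Matrix κ κ F)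
    (u w : κ → F) (γ : o → F) :
    (fun p : κ × o => γ p.2 * u p.1) ⬝ᵥ (Matrix.blockDiagonal A *ᵥ fun p : κ × o => w p.1) =
      ∑ e, γ e * (u ⬝ᵥ (A e *ᵥ w)) := by
  simp only [dotProduct, Matrix.mulVec, Fintype.sum_prod_type, Matrix.blockDiagonal_apply]
  rw [Finset.sum_comm]
  refine Finset.sum_congr rfl fun e _ => ?_
  rw [Finset.mul_sum]
  refine Finset.sum_congr rfl fun i _ => ?_
  rw [mul_assoc]
  congr 2
  refine Finset.sum_congr rfl fun j _ => ?_
  rw [Finset.sum_eq_single e]
  · rw [if_pos rfl]
  · intro e' _ he'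
    rw [if_neg (Ne.symm he'), zero_mul]
  · intro he
    exact absurd (Finset.mem_univ e) he

/-- The direct sum of restrictions of a chain, with coefficients. -/
noncomputable def Chain.block {o : Type*} [Fintype o] [DecidableEq o] (C : Chain F κ) (J : Finset ℕ)
    (p : o → ℕ → F) (γ : o → F) : Chain F (κ × o) where
  v := C.v
  M := blockM C.M C.v J p
  u := fun q => γ q.2 * C.u q.1
  w := fun q => C.w q.1

theorem Chain.val_block {o : Type*} [Fintype o] [DecidableEq o] (C : Chain F κ) (J : Finset ℕ)
    (p : o → ℕ → F) (γ : o → F) (n : ℕ) (x : ℕ → F) :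
    (C.block J p γ).val n x = ∑ e, γ e * C.val n (mix J (p e) x) := by
  rw [Chain.val, Chain.block]
  dsimp only
  rw [segx_block, dot_blockDiagonal]
  rfl

theorem good_block {o : Type*} [Fintype o] [DecidableEq o] {n : ℕ} (C : Chain F κ) (J : Finset ℕ)
    (p : o → ℕ → F) (γ : o → F) (x₀ : ℕ → F) (h : ∀ e, Good n C.v C.M (mix J (p e) x₀)) :
    Good n (C.block J p γ).v (C.block J p γ).M x₀ := by
  intro i j hij hj x
  rw [Chain.block]
  dsimp only
  rw [segx_block, segx_block]
  exact rank_blockDiagonal_le _ _ fun e => h e i j hij hj _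

theorem MIsPoly.segx_mix (M : ℕ → Matrix κ κ (Polynomial F)) (v : ℕ → ℕ) (J : Finset ℕ) (x : ℕ → F)
    (i j : ℕ) : MIsPoly fun y : ℕ → F => RO.segx M v (mix J y x) i j := by
  unfold RO.segx
  apply MIsPoly.seg
  intro l a b
  by_cases h : v l ∈ J
  · have h1 : (fun y : ℕ → F => RO.ev M (fun l => mix J y x (v l)) l a b) =
        fun y : ℕ → F => (M l a b).eval (y (v l)) := by
      funext y
      rw [RO.ev, mix, if_pos h]
      rfl
    rw [h1]
    exact IsPoly.coord _ _
  · have h1 : (fun y : ℕ → F => RO.ev M (fun l => mix J y x (v l)) l a b) =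
        fun _ : ℕ → F => (M l a b).eval (x (v l)) := by
      funext y
      rw [RO.ev, mix, if_neg h]
      rfl
    rw [h1]
    exact IsPoly.const _

theorem Chain.val_congr {n : ℕ} (C : Chain F κ) (hv : IsOrder n n C.v) {x y : ℕ → F}
    (h : ∀ i < n, x i = y i) : C.val n x = C.val n y := by
  rw [Chain.val, Chain.val, segx_congr C.M C.v fun l _ hl => h _ (hv.lt l hl)]

/-- The number of modifications for `c` chains of width `W`. -/
def tau : ℕ → ℕ → ℕ
  | 0, _ => 0
  | c + 1, W => Tb W + 1 + tau c (W * (W + 1))

end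

section Main

variable {F : Type*} [Field F] [Infinite F]

theorem sum_near (n : ℕ) : ∀ (c : ℕ) (κ : Type) [Fintype κ] [DecidableEq κ] (C : Fin c → Chain F κ)
    (x₀ : ℕ → F), (∀ b, IsOrder n n (C b).v) → (∀ b, Good n (C b).v (C b).M x₀) →
    (∃ x, ∑ b, (C b).val n x ≠ 0) → ∃ s ⊆ Finset.range n, s.card ≤ tau c (Fintype.card κ) ∧
      ∃ x, (∀ i ∉ s, x i = x₀ i) ∧ ∑ b, (C b).val n x ≠ 0 := by
  intro c
  induction c with
  | zero =>
    rintro κ _ _ C x₀ - - ⟨x, hx⟩
    exact absurd Finset.sum_empty hx
  | succ c ih =>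
    intro κ _ _ C x₀ hord hgood hne
    by_contra hcon
    push Not at hcon
    set f : (ℕ → F) → F := fun x => ∑ b, (C b).val n x with hf
    set v := (C 0).v with hv
    have hv0 : IsOrder n n v := hord 0
    have hfam := fun j (hj : j ≤ n) => exists_family C 0 (hord 0) x₀ hgood hj
    choose! β hβ1 hβ2 hβ3 using hfam
    have hpre : ∀ j ≤ n, pre v j ⊆ Finset.range n := by
      intro j hj i hi
      obtain ⟨l, hl, rfl⟩ := Finset.mem_image.1 hi
      exact Finset.mem_range.2 (hv0.lt l (by have := Finset.mem_range.1 hl; omega))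
    -- the dependencies
    have hdep : ∀ j < n, ∀ k y x, (∀ i, i ≠ v j → y i = β j k i) →
        (∀ k', f (mix (pre v (j + 1)) (β (j + 1) k') x) = 0) → f (mix (pre v (j + 1)) y x) = 0 := by
      intro j hj k y x hy hx
      set J := pre v (j + 1) with hJ
      obtain ⟨G, hG⟩ := exists_pseudo (Matrix.of fun k' => (C 0).vec (j + 1) (β (j + 1) k'))
      set lam : (ℕ → F) → κ → F := fun y k' =>
        (C 0).u ⬝ᵥ (segx (C 0).M (C 0).v y 0 (j + 1) *ᵥ fun i => G i k') with hlam
      have hlam' : ∀ y, lam y = (C 0).vec (j + 1) y ᵥ* G := by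
        intro y
        funext k'
        rw [hlam]
        dsimp only
        rw [Matrix.dotProduct_mulVec]
        rfl
      have hstar : ∀ y x, (C 0).val n (mix J y x) =
          ∑ k', lam y k' * (C 0).val n (mix J (β (j + 1) k') x) := by
        intro y x
        have h1 := hG ((C 0).vec (j + 1) y) (hβ3 (j + 1) hj y)
        have h2 : ∀ z, (C 0).val n (mix J z x) =
            (C 0).vec (j + 1) z ⬝ᵥ (segx (C 0).M (C 0).v x (j + 1) n *ᵥ (C 0).w) := by
          intro z
          rw [Chain.val_eq (C 0) hj, vec_mix, segx_mix (C 0) (hord 0)]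
        rw [h2, ← h1, ← hlam']
        simp only [h2]
        rw [← Matrix.dotProduct_mulVec]
        rfl
      set H : (ℕ → F) → (ℕ → F) → F := fun y x => f (mix J y x) -
        ∑ k', lam y k' * f (mix J (β (j + 1) k') x) with hH
      -- the block chains
      set p : (ℕ → F) → Option κ → ℕ → F := fun y e => e.elim y (β (j + 1)) with hp
      set γ : (ℕ → F) → Option κ → F := fun y e => e.elim 1 (fun k' => -lam y k') with hγ
      have hHblock : ∀ y x, H y x = ∑ b : Fin c, ((C b.succ).block J (p y) (γ y)).val n x := by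
        intro y x
        simp only [Chain.val_block]
        rw [hH, hf]
        dsimp only
        rw [Fin.sum_univ_succ, hstar y x]
        simp only [Fin.sum_univ_succ (f := fun b => (C b).val n _), mul_add, Finset.mul_sum,
          Finset.sum_add_distrib]
        rw [Finset.sum_comm (s := (Finset.univ : Finset κ))]
        simp only [Fintype.sum_option, hp, hγ, Option.elim, one_mul, neg_mul,
          Finset.sum_neg_distrib, Finset.sum_add_distrib]
        ring
      have hpreJ : J ⊆ Finset.range n := hpre (j + 1) hj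
      have hvj : v j ∈ J := mem_pre (Nat.lt_succ_self j)
      have hprej : pre v j ⊆ J := by
        intro i hi
        obtain ⟨l, hl, rfl⟩ := Finset.mem_image.1 hi
        exact mem_pre (by have := Finset.mem_range.1 hl; omega)
      -- generic `y`
      have hgen : ∀ y, (∀ i, i ≠ v j → y i = β j k i) → (∀ b, Good n (C b).v (C b).M y) →
          ∀ x, H y x = 0 := by
        intro y hy hyg x
        by_contra hHx
        obtain ⟨sβ, hsβ, hsβc, hsβ'⟩ := hβ1 j hj.le k
        have hyx₀ : mix J y x₀ = y := by
          funext i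
          rw [mix]
          split_ifs with hi
          · rfl
          · rw [hy i (fun h => hi (h ▸ hvj)), hsβ' i fun h => hi (hprej (hsβ h))]
        have hβx₀ : ∀ k', mix J (β (j + 1) k') x₀ = β (j + 1) k' := by
          intro k'
          obtain ⟨s', hs', -, hs''⟩ := hβ1 (j + 1) hj k'
          funext i
          rw [mix]
          split_ifs with hi
          · rfl
          · rw [hs'' i fun h => hi (hs' h)]
        obtain ⟨s', hs', hs'c, x₁, hx₁, hx₁'⟩ := ih (κ × Option κ)
          (fun b => (C b.succ).block J (p y) (γ y)) x₀ (fun b => hord b.succ) (by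
            intro b
            apply good_block
            intro e
            cases e with
            | none =>
              change Good n _ _ (mix J y x₀)
              rw [hyx₀]
              exact hyg b.succ
            | some k' =>
              change Good n _ _ (mix J (β (j + 1) k') x₀)
              rw [hβx₀]
              exact hβ2 (j + 1) hj k' b.succ) ⟨x, by
            rw [← hHblock]
            exact hHx⟩
        rw [← hHblock] at hx₁'
        have hcardt : tau (c + 1) (Fintype.card κ) =
            Tb (Fintype.card κ) + 1 + tau c (Fintype.card (κ × Option κ)) := by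
          rw [tau, Fintype.card_prod, Fintype.card_option]
        apply hx₁'
        rw [hH]
        dsimp only
        have e1 : f (mix J y x₁) = 0 := by
          apply hcon (insert (v j) (sβ ∪ s'))
          · intro i hi
            rw [Finset.mem_insert, Finset.mem_union] at hi
            rcases hi with rfl | hi | hi
            · exact hpreJ hvj
            · exact hpreJ (hprej (hsβ hi))
            · exact hs' hi
          · have h1 := Finset.card_insert_le (v j) (sβ ∪ s')
            have h2 := Finset.card_union_le sβ s'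
            omega
          · intro i hi
            rw [Finset.mem_insert, Finset.mem_union, not_or, not_or] at hi
            rw [mix]
            split_ifs with h
            · rw [hy i hi.1, hsβ' i hi.2.1]
            · exact hx₁ i hi.2.2
        have e2 : ∀ k', f (mix J (β (j + 1) k') x₁) = 0 := by
          intro k'
          obtain ⟨s₂, hs₂, hs₂c, hs₂'⟩ := hβ1 (j + 1) hj k'
          apply hcon (s₂ ∪ s')
          · intro i hi
            rw [Finset.mem_union] at hi
            rcases hi with hi | hi
            · exact hpreJ (hs₂ hi)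
            · exact hs' hi
          · have h2 := Finset.card_union_le s₂ s'
            omega
          · intro i hi
            rw [Finset.mem_union, not_or] at hi
            rw [mix]
            split_ifs with h
            · exact hs₂' i hi.1
            · exact hx₁ i hi.2
        rw [e1]
        simp only [e2, mul_zero, Finset.sum_const_zero, sub_zero]
      -- all `y`
      have hall : H y x = 0 := by
        by_contra hHx
        choose g hg1 hg2 hg3 using fun b => (hβ2 j hj.le k b).exists_poly
        have hJ' : Joined {z : ℕ → F | ∀ i ∈ {i | i ≠ v j}, z i = β j k i} := joined_agree _ _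
        have hHpoly : IsPoly fun z => H z x := by
          have h1 : (fun z => H z x) = fun z => ∑ b, (C b).val n (mix J z x) +
              ∑ k', lam z k' * (- f (mix J (β (j + 1) k') x)) := by
            funext z
            rw [hH]
            simp only [mul_neg, Finset.sum_neg_distrib, hf]
            ring
          rw [h1]
          refine (IsPoly.sum _ fun b _ => ?_).add (IsPoly.sum _ fun k' _ => ?_)
          · exact (MIsPoly.segx_mix (C b).M (C b).v J x 0 n).dot _ _
          · exact ((MIsPoly.segx (C 0).M (C 0).v 0 (j + 1)).dot _ _).mul (IsPoly.const _)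
        obtain ⟨z, hz, hz'⟩ := hJ'.mul hHpoly (IsPoly.prod Finset.univ fun b _ => hg1 b)
          ⟨y, fun i hi => hy i hi, hHx⟩
          ⟨β j k, fun _ _ => rfl, Finset.prod_ne_zero_iff.2 fun b _ => hg2 b⟩
        apply left_ne_zero_of_mul hz'
        exact hgen z (fun i hi => hz i hi) (fun b => hg3 b z
          (Finset.prod_ne_zero_iff.1 (right_ne_zero_of_mul hz') b (Finset.mem_univ b))) x
      rw [hH] at hall
      simp only [hx, mul_zero, Finset.sum_const_zero, sub_zero] at hall
      exact hall
    -- the induction along the first chain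
    have hC : ∀ d ≤ n, ∀ k x, f (mix (pre v (n - d)) (β (n - d) k) x) = 0 := by
      intro d
      induction d with
      | zero =>
        intro _ k x
        rw [Nat.sub_zero]
        obtain ⟨s, hs, hsc, hs'⟩ := hβ1 n le_rfl k
        have h1 : f (mix (pre v n) (β n k) x) = f (β n k) := by
          rw [hf]
          refine Finset.sum_congr rfl fun b _ => (C b).val_congr (hord b) fun i hi => ?_
          rw [mix, if_pos (by rw [pre_full hv0]; exact Finset.mem_range.2 hi)]
        rw [h1]
        refine hcon s (hs.trans (hpre n le_rfl)) ?_ _ hs'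
        rw [tau]
        omega
      | succ d ihd =>
        intro hd k x
        have hj : n - (d + 1) < n := by omega
        have hj1 : n - (d + 1) + 1 = n - d := by omega
        set j := n - (d + 1) with hjd
        have h1 := hdep j hj k (Function.update (β j k) (v j) (x (v j))) x
          (fun i hi => Function.update_of_ne hi _ _) (by
            intro k'
            rw [hj1]
            exact ihd (by omega) k' x)
        have h2 : mix (pre v (j + 1)) (Function.update (β j k) (v j) (x (v j))) x =
            mix (pre v j) (β j k) x := by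
          funext i
          rw [mix, mix]
          by_cases hi : i = v j
          · rw [hi, if_pos (mem_pre (Nat.lt_succ_self j)), if_neg (not_mem_pre hv0 le_rfl hj),
              Function.update_self]
          · have h3 : i ∈ pre v (j + 1) ↔ i ∈ pre v j := by
              rw [pre, Finset.range_add_one, Finset.image_insert, Finset.mem_insert]
              exact ⟨fun h => h.resolve_left hi, Or.inr⟩
            simp only [h3, Function.update_of_ne hi]
        rw [h2] at h1
        exact h1
    obtain ⟨x, hx⟩ := hne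
    rcases isEmpty_or_nonempty κ with hκ | ⟨⟨k⟩⟩
    · apply hx
      refine Finset.sum_eq_zero fun b _ => ?_
      rw [Chain.val, dotProduct, Finset.univ_eq_empty, Finset.sum_empty]
    · apply hx
      have h1 := hC n le_rfl k x
      rw [Nat.sub_self] at h1
      have h2 : mix (pre v 0) (β 0 k) x = x := by
        funext i
        rw [mix, if_neg]
        simp [pre]
      rw [h2] at h1
      exact h1

end Main

end Pool.Agent.Helper4.RO
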