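import Mathlib
import Pool.Agent.Helper28.D4.Hit
import Pool.Agent.Helper4.RO.Sum

/-!
# The explicit points and the hitting set theorem
-/

namespace Pool.Agent.Helper4.RO

set_option linter.unusedSectionVars false
set_option linter.unusedDecidableInType false

open Pool.Agent.Helper28.D4 (G map_G)

/-! ### The levels -/

/-- The points of level `k` (no condition on the coordinates `n, n + 1, ...`). -/
def lvl (n k : ℕ) : Set (ℕ → ℂ) :=
  {x | ∃ z w : Fin k → ℂ, ∀ i : Fin n, x i = G n k z w i}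

theorem joined_lvl (n k : ℕ) : Joined (lvl n k) := by
  rintro x ⟨z, w, hx⟩ y ⟨z', w', hy⟩
  have hev : ∀ (s : ℂ) (i : Fin n), Polynomial.eval s
      (G n k (fun j => Polynomial.C (z j) + Polynomial.X * Polynomial.C (z' j - z j))
          (fun j => Polynomial.C (w j) + Polynomial.X * Polynomial.C (w' j - w j)) i) =
      G n k (fun j => z j + s * (z' j - z j)) (fun j => w j + s * (w' j - w j)) i := by
    intro s i
    have h := map_G (Polynomial.evalRingHom s)
      (fun j => Polynomial.C (z j) + Polynomial.X * Polynomial.C (z' j - z j))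
      (fun j => Polynomial.C (w j) + Polynomial.X * Polynomial.C (w' j - w j)) i
    simp only [Polynomial.coe_evalRingHom, Polynomial.eval_add, Polynomial.eval_mul,
      Polynomial.eval_C, Polynomial.eval_X] at h
    exact h
  refine ⟨fun i => if h : i < n then
      G n k (fun j => Polynomial.C (z j) + Polynomial.X * Polynomial.C (z' j - z j))
          (fun j => Polynomial.C (w j) + Polynomial.X * Polynomial.C (w' j - w j)) ⟨i, h⟩
      else Polynomial.C (x i) + Polynomial.X * Polynomial.C (y i - x i), ?_, ?_, ?_⟩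
  · intro i
    dsimp only
    split_ifs with h
    · rw [hev]
      simp only [zero_mul, add_zero]
      exact (hx ⟨i, h⟩).symm
    · simp
  · intro i
    dsimp only
    split_ifs with h
    · rw [hev]
      simp only [one_mul, add_sub_cancel]
      exact (hy ⟨i, h⟩).symm
    · simp
  · intro s
    refine ⟨fun j => z j + s * (z' j - z j), fun j => w j + s * (w' j - w j), ?_⟩
    intro i
    dsimp only
    rw [dif_pos i.2, hev]

theorem G_cons (n k : ℕ) (z₀ w₀ : ℂ) (z w : Fin k → ℂ) (i : Fin n) :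
    G n (k + 1) (Fin.cons z₀ z) (Fin.cons w₀ w) i =
      z₀ * ∏ i' ∈ Finset.univ.erase i, (w₀ - ((i' : ℕ) : ℂ)) + G n k z w i := by
  rw [G, G, Fin.sum_univ_succ]
  simp only [Fin.cons_zero, Fin.cons_succ]

theorem lvl_succ {n k : ℕ} {x : ℕ → ℂ} (hx : x ∈ lvl n k) : x ∈ lvl n (k + 1) := by
  obtain ⟨z, w, hx⟩ := hx
  refine ⟨Fin.cons 0 z, Fin.cons 0 w, fun i => ?_⟩
  rw [G_cons, zero_mul, zero_add, hx]

theorem lvl_mono {n k k' : ℕ} (h : k ≤ k') {x : ℕ → ℂ} (hx : x ∈ lvl n k) : x ∈ lvl n k' := by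
  induction k', h using Nat.le_induction with
  | base => exact hx
  | succ _ _ ih => exact lvl_succ ih

theorem lvl_one {n k : ℕ} {x x' : ℕ → ℂ} (hx : x ∈ lvl n k) {i₀ : ℕ} (hi₀ : i₀ < n)
    (h : ∀ i, i ≠ i₀ → x' i = x i) : x' ∈ lvl n (k + 1) := by
  obtain ⟨z, w, hx⟩ := hx
  set D : ℂ := ∏ i' ∈ (Finset.univ : Finset (Fin n)).erase ⟨i₀, hi₀⟩,
    ((i₀ : ℂ) - ((i' : ℕ) : ℂ)) with hD
  have hD0 : D ≠ 0 := by
    rw [hD, Finset.prod_ne_zero_iff]
    intro i' hi'
    rw [sub_ne_zero]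
    intro h5
    have h6 : i₀ = (i' : ℕ) := by exact_mod_cast h5
    exact (Finset.mem_erase.1 hi').1 (Fin.ext h6.symm)
  refine ⟨Fin.cons ((x' i₀ - x i₀) / D) z, Fin.cons (i₀ : ℂ) w, fun i => ?_⟩
  rw [G_cons]
  by_cases hi : (i : ℕ) = i₀
  · have hi' : i = ⟨i₀, hi₀⟩ := Fin.ext hi
    rw [hi', ← hD, div_mul_cancel₀ _ hD0]
    have h1 := hx ⟨i₀, hi₀⟩
    dsimp only at h1 ⊢
    rw [h1]
    ring
  · rw [h i hi, hx i, Finset.prod_eq_zero (i := ⟨i₀, hi₀⟩), mul_zero, zero_add]
    · rw [Finset.mem_erase]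
      exact ⟨fun h5 => hi (congrArg Fin.val h5).symm, Finset.mem_univ _⟩
    · exact sub_self _

theorem lvl_modif {n : ℕ} (s : Finset ℕ) : s ⊆ Finset.range n → ∀ (k : ℕ) (x : ℕ → ℂ), x ∈ lvl n k →
    ∀ x' : ℕ → ℂ, (∀ i ∉ s, x' i = x i) → x' ∈ lvl n (k + s.card) := by
  classical
  induction s using Finset.induction_on with
  | empty =>
    intro _ k x hx x' hx'
    have : x' = x := funext fun i => hx' i (Finset.notMem_empty i)
    rw [this]
    exact hx
  | insert a s ha ih =>
    intro hs k x hx x' hx'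
    have h1 := ih (fun i hi => hs (Finset.mem_insert_of_mem hi)) k x hx
      (Function.update x' a (x a)) (by
        intro i hi
        by_cases hia : i = a
        · rw [hia, Function.update_self]
        · rw [Function.update_of_ne hia]
          exact hx' i fun h => by
            rcases Finset.mem_insert.1 h with h | h
            · exact hia h
            · exact hi h)
    rw [Finset.card_insert_of_notMem ha, ← Nat.add_assoc]
    exact lvl_one h1 (Finset.mem_range.1 (hs (Finset.mem_insert_self a s))) fun i hi => by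
      rw [Function.update_of_ne hi]

theorem zero_mem_lvl (n k : ℕ) : (fun _ => 0 : ℕ → ℂ) ∈ lvl n k :=
  lvl_mono (Nat.zero_le k) ⟨Fin.elim0, Fin.elim0, fun i => by simp [G]⟩

/-- The levels with one more block. -/
theorem isLevels_lvl (n : ℕ) : IsLevels n (fun k => lvl n (k + 1)) where
  joined k := joined_lvl n (k + 1)
  modif k t x hx s hs hc x' hx' :=
    lvl_mono (by omega) (lvl_modif s hs (k + 1) x hx x' hx')
  nonempty₀ := ⟨_, zero_mem_lvl n 1⟩
  const i hi c := ⟨Function.update (fun _ => 0) i c, lvl_one (zero_mem_lvl n 0) hi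
    (fun j hj => Function.update_of_ne hj _ _), Function.update_self _ _ _⟩

/-! ### Good points for several chains -/

theorem exists_good {F : Type*} [Field F] [Infinite F] {N : ℕ} {S : ℕ → Set (ℕ → F)}
    (hS : IsLevels N S) {κ : Type*} [Fintype κ] [DecidableEq κ] {n c : ℕ} (C : Fin c → Chain F κ)
    (hv : ∀ b, IsOrder N n (C b).v) :
    ∃ x₀ ∈ S (lev (Fintype.card κ)), ∀ b, Good n (C b).v (C b).M x₀ := by
  have hg : ∀ p ∈ (Finset.univ : Finset (Fin c × Fin (n + 1) × Fin (n + 1))),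
      ∃ g : (ℕ → F) → F, IsPoly g ∧ (∃ x ∈ S (lev (Fintype.card κ)), g x ≠ 0) ∧
        ∀ x₀, g x₀ ≠ 0 → ∀ x, (segx (C p.1).M (C p.1).v x p.2.1 p.2.2).rank ≤
          (segx (C p.1).M (C p.1).v x₀ p.2.1 p.2.2).rank := by
    rintro ⟨b, i, j⟩ -
    obtain ⟨y, hy⟩ := exists_max (fun x : ℕ → F => (segx (C b).M (C b).v x i j).rank)
      (Fintype.card κ) fun x => Matrix.rank_le_card_width _
    obtain ⟨P, Q, hPQ⟩ := exists_mul_eq_one (segx (C b).M (C b).v y i j) le_rfl
    refine ⟨fun x => (P * segx (C b).M (C b).v x i j * Q).det,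
      (((MIsPoly.const P).mul (MIsPoly.segx _ _ i j)).mul (MIsPoly.const Q)).det, ?_, ?_⟩
    · obtain ⟨x, hx, h⟩ := hits_lev (κ := κ) hS _ (j - i) (fun l => (C b).v (i + l))
        (fun l => (C b).M (i + l)) P Q ((hv b).shift (Nat.lt_succ_iff.1 j.2)) ⟨y, by
          rw [← segx_shift, hPQ, Matrix.det_one]
          exact one_ne_zero⟩
      rw [← segx_shift] at h
      exact ⟨x, hx, h⟩
    · intro x₀ hx₀ x
      exact (hy x).trans (le_rank_of_det_ne_zero _ _ _ hx₀)
  choose! g hg1 hg2 hg3 using hg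
  obtain ⟨x₀, hx₀, h₀⟩ := (hS.joined _).prod (hS.nonempty _) Finset.univ g hg1 hg2
  refine ⟨x₀, hx₀, fun b i j hij hj x => ?_⟩
  exact hg3 (b, ⟨i, by omega⟩, ⟨j, by omega⟩) (Finset.mem_univ _) x₀ (h₀ _ (Finset.mem_univ _)) x

/-- Sums of chains are hit. -/
theorem exists_hit {F : Type*} [Field F] [Infinite F] {n : ℕ} {S : ℕ → Set (ℕ → F)}
    (hS : IsLevels n S) {κ : Type} [Fintype κ] [DecidableEq κ] {c : ℕ} (C : Fin c → Chain F κ)
    (hv : ∀ b, IsOrder n n (C b).v) (hne : ∃ x, ∑ b, (C b).val n x ≠ 0) :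
    ∃ x ∈ S (lev (Fintype.card κ) + tau c (Fintype.card κ)), ∑ b, (C b).val n x ≠ 0 := by
  obtain ⟨x₀, hx₀, hg⟩ := exists_good hS C hv
  obtain ⟨s, hs, hc, x, hx, hx'⟩ := sum_near n c κ C x₀ hv hg hne
  exact ⟨x, hS.modif _ _ x₀ hx₀ s hs hc x hx, hx'⟩

/-! ### Branching programs -/

/-- Read-once oblivious branching programs of width `w` in some order of the variables. -/
def IsRO {n : ℕ} (w : ℕ) (f : MvPolynomial (Fin n) ℂ) : Prop :=
  ∃ (σ : Equiv.Perm (Fin n)) (M : Fin n → Matrix (Fin w) (Fin w) (Polynomial ℂ))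
    (u v : Fin w → ℂ),
    f = ∑ i, ∑ j, MvPolynomial.C (u i * v j) * (List.ofFn fun l => (M l).map
      fun p => Polynomial.aeval (MvPolynomial.X (σ l) : MvPolynomial (Fin n) ℂ) p).prod i j

theorem ofFn_prod {R : Type*} [Semiring R] {κ : Type*} [Fintype κ] [DecidableEq κ]
    (A : ℕ → Matrix κ κ R) : ∀ n : ℕ, (List.ofFn fun l : Fin n => A l).prod = seg A 0 n := by
  intro n
  induction n with
  | zero => rfl
  | succ n ih =>
    rw [List.ofFn_succ', List.concat_eq_append, List.prod_append, List.prod_singleton,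
      seg_succ A (Nat.zero_le n), ← ih]
    rfl

theorem IsRO.exists_chain {n w : ℕ} {f : MvPolynomial (Fin n) ℂ} (hf : IsRO w f) :
    ∃ C : Chain ℂ (Fin w), IsOrder n n C.v ∧
      ∀ x : ℕ → ℂ, C.val n x = MvPolynomial.eval (fun i : Fin n => x i) f := by
  obtain ⟨σ, M, u, v, rfl⟩ := hf
  refine ⟨⟨fun l => if h : l < n then (σ ⟨l, h⟩ : ℕ) else 0,
    fun l => if h : l < n then M ⟨l, h⟩ else 0, u, v⟩, ⟨?_, ?_⟩, ?_⟩
  · intro l hl
    dsimp only
    rw [dif_pos hl]
    exact (σ ⟨l, hl⟩).2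
  · intro l hl l' hl' h
    dsimp only at h
    rw [dif_pos hl, dif_pos hl'] at h
    exact congrArg Fin.val (σ.injective (Fin.ext h))
  · intro x
    rw [Chain.val, segx, ← ofFn_prod, map_sum]
    have h1 : ∀ l : Fin n, ev (fun l => if h : l < n then M ⟨l, h⟩ else 0)
        (fun l => x (if h : l < n then (σ ⟨l, h⟩ : ℕ) else 0)) (l : ℕ) =
        (MvPolynomial.eval (fun i : Fin n => x i)).mapMatrix ((M l).map
          fun p => Polynomial.aeval (MvPolynomial.X (σ l) : MvPolynomial (Fin n) ℂ) p) := by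
      intro l
      rw [ev, dif_pos l.2, dif_pos l.2]
      ext a b
      rw [RingHom.mapMatrix_apply, Matrix.map_apply, Matrix.map_apply, Matrix.map_apply]
      have h := Polynomial.hom_eval₂ (M l a b) (algebraMap ℂ (MvPolynomial (Fin n) ℂ))
        (MvPolynomial.eval (fun i : Fin n => x i)) (MvPolynomial.X (σ l))
      rw [Polynomial.aeval_def, h, MvPolynomial.eval_X]
      have h2 : (MvPolynomial.eval (fun i : Fin n => x i)).comp
          (algebraMap ℂ (MvPolynomial (Fin n) ℂ)) = RingHom.id ℂ := by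
        ext a
        simp [MvPolynomial.algebraMap_eq]
      rw [h2, Polynomial.eval₂_id]
    simp only [h1]
    have h3 : (List.ofFn fun l : Fin n => (MvPolynomial.eval (fun i : Fin n => x i)).mapMatrix
        ((M l).map fun p => Polynomial.aeval (MvPolynomial.X (σ l) : MvPolynomial (Fin n) ℂ) p)).prod =
        (MvPolynomial.eval (fun i : Fin n => x i)).mapMatrix
          (List.ofFn fun l : Fin n => ((M l).map
            fun p => Polynomial.aeval (MvPolynomial.X (σ l) : MvPolynomial (Fin n) ℂ) p)).prod := by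
      rw [map_list_prod, List.map_ofFn]
      rfl
    rw [h3]
    simp only [dotProduct, Matrix.mulVec, map_sum, map_mul, MvPolynomial.eval_C, Finset.mul_sum]
    refine Finset.sum_congr rfl fun i _ => Finset.sum_congr rfl fun j _ => ?_
    rw [RingHom.mapMatrix_apply, Matrix.map_apply]
    ring

/-- Sums of `c` branching programs of width `w`, each with its own order of the variables. -/
def Sums (n w c : ℕ) : Set (MvPolynomial (Fin n) ℂ) :=
  {f | ∃ g : Fin c → MvPolynomial (Fin n) ℂ, (∀ b, IsRO w (g b)) ∧ f = ∑ b, g b}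

theorem sums_hit {n w c : ℕ} {f : MvPolynomial (Fin n) ℂ} (hf : f ∈ Sums n w c) (h0 : f ≠ 0) :
    ∃ x ∈ lvl n (lev w + tau c w + 1), MvPolynomial.eval (fun i : Fin n => x i) f ≠ 0 := by
  obtain ⟨g, hg, rfl⟩ := hf
  choose C hC1 hC2 using fun b => (hg b).exists_chain
  have hval : ∀ x : ℕ → ℂ, ∑ b, (C b).val n x =
      MvPolynomial.eval (fun i : Fin n => x i) (∑ b, g b) := by
    intro x
    rw [map_sum]
    exact Finset.sum_congr rfl fun b _ => hC2 b x
  obtain ⟨a, ha⟩ := Pool.Agent.Helper28.D4.exists_eval_ne_zero _ h0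
  obtain ⟨x, hx, hx'⟩ := exists_hit (isLevels_lvl n) C hC1 ⟨fun i => if h : i < n then a ⟨i, h⟩ else 0, by
    rw [hval]
    simpa using ha⟩
  rw [hval] at hx'
  rw [Fintype.card_fin] at hx
  exact ⟨x, hx, hx'⟩

/-- Products of sums are hit. -/
theorem closure_hit {n w c : ℕ} {f : MvPolynomial (Fin n) ℂ}
    (hf : f ∈ Submonoid.closure (Sums n w c)) (h0 : f ≠ 0) :
    ∃ x ∈ lvl n (lev w + tau c w + 1), MvPolynomial.eval (fun i : Fin n => x i) f ≠ 0 := by
  have hpoly : ∀ p : MvPolynomial (Fin n) ℂ,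
      IsPoly fun x : ℕ → ℂ => MvPolynomial.eval (fun i : Fin n => x i) p := by
    intro p
    refine ⟨MvPolynomial.rename (fun i : Fin n => (i : ℕ)) p, fun x => ?_⟩
    rw [MvPolynomial.eval_rename]
    rfl
  induction hf using Submonoid.closure_induction with
  | mem f hf => exact sums_hit hf h0
  | one =>
    exact ⟨_, zero_mem_lvl n _, by simp⟩
  | mul a b _ _ ha hb =>
    obtain ⟨x, hx, h⟩ := (joined_lvl n (lev w + tau c w + 1)).mul (hpoly a) (hpoly b)
      (ha (left_ne_zero_of_mul h0)) (hb (right_ne_zero_of_mul h0))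
    exact ⟨x, hx, by rwa [map_mul]⟩

end Pool.Agent.Helper4.RO
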