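import Mathlib
import Pool.Agent.Helper4.RO.Modif

/-!
# Monotone subsequences for several orders
-/

namespace Pool.Agent.Helper4.RO

/-- The length of the longest increasing subsequence ending at `i`. -/
noncomputable def lis (g : ℕ → ℕ) (i : ℕ) : ℕ :=
  ((Finset.range i).attach.filter fun j => g j.1 < g i).sup
    (fun j => lis g j.1) + 1
termination_by i
decreasing_by exact Finset.mem_range.1 j.2

theorem lis_lt (g : ℕ → ℕ) {i j : ℕ} (h : j < i) (hg : g j < g i) : lis g j < lis g i := by
  conv_rhs => rw [lis]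
  apply Nat.lt_succ_of_le
  exact Finset.le_sup (f := fun j : {x // x ∈ Finset.range i} => lis g j.1)
    (Finset.mem_filter.2 ⟨Finset.mem_attach _ ⟨j, Finset.mem_range.2 h⟩, hg⟩)

theorem exists_of_lis (g : ℕ → ℕ) : ∀ k i, k + 1 ≤ lis g i → ∃ t : ℕ → ℕ, t k = i ∧
    ∀ s s', s < s' → s' ≤ k → t s < t s' ∧ g (t s) < g (t s') := by
  intro k
  induction k with
  | zero => intro i _; exact ⟨fun _ => i, rfl, fun s s' h h' => by omega⟩
  | succ k ih =>
    intro i hi
    rw [lis] at hi
    have h1 : k + 1 ≤ ((Finset.range i).attach.filter fun j => g j.1 < g i).sup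
        (fun j => lis g j.1) := by omega
    obtain ⟨j, hj, hj'⟩ := (Finset.le_sup_iff (Nat.succ_pos k)).1 h1
    rw [Finset.mem_filter] at hj
    obtain ⟨t, ht, ht'⟩ := ih j.1 hj'
    have hji : j.1 < i := Finset.mem_range.1 j.2
    refine ⟨fun s => if s ≤ k then t s else i, if_neg (by omega), ?_⟩
    intro s s' hs hs'
    rcases Nat.lt_or_ge k s' with h | h
    · have e1 : (if s ≤ k then t s else i) = t s := if_pos (by omega)
      have e2 : (if s' ≤ k then t s' else i) = i := if_neg (by omega)
      simp only [e1, e2]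
      rcases Nat.eq_or_lt_of_le (show s ≤ k by omega) with h' | h'
      · rw [h', ht]
        exact ⟨hji, hj.2⟩
      · have h2 := ht' s k h' le_rfl
        rw [ht] at h2
        exact ⟨h2.1.trans hji, h2.2.trans hj.2⟩
    · have e1 : (if s ≤ k then t s else i) = t s := if_pos (by omega)
      have e2 : (if s' ≤ k then t s' else i) = t s' := if_pos h
      simp only [e1, e2]
      exact ht' s s' hs h

/-- Erdős–Szekeres. -/
theorem erdos_szekeres (N L : ℕ) (hL : N * N < L) (g : ℕ → ℕ)
    (hg : ∀ i < L, ∀ j < L, g i = g j → i = j) :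
    ∃ t : ℕ → ℕ, (∀ s ≤ N, t s < L) ∧ (∀ s s', s < s' → s' ≤ N → t s < t s') ∧
      ((∀ s s', s < s' → s' ≤ N → g (t s) < g (t s')) ∨
        (∀ s s', s < s' → s' ≤ N → g (t s') < g (t s))) := by
  classical
  by_cases h : ∃ i < L, N + 1 ≤ lis g i
  · obtain ⟨i, hi, hi'⟩ := h
    obtain ⟨t, ht, ht'⟩ := exists_of_lis g N i hi'
    refine ⟨t, ?_, fun s s' h h' => (ht' s s' h h').1, Or.inl fun s s' h h' => (ht' s s' h h').2⟩
    intro s hs
    rcases Nat.eq_or_lt_of_le hs with h | h
    · rw [h, ht]
      exact hi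
    · have := (ht' s N h le_rfl).1
      omega
  · push Not at h
    obtain ⟨y, -, hy⟩ := Finset.exists_lt_card_fiber_of_mul_lt_card_of_maps_to
      (s := Finset.range L) (t := Finset.Icc 1 N) (f := lis g) (n := N) (by
        intro i hi
        rw [Finset.mem_Icc]
        refine ⟨?_, ?_⟩
        · rw [lis]
          omega
        · have := h i (Finset.mem_range.1 hi)
          omega) (by
        rw [Finset.card_range, Nat.card_Icc]
        simpa using hL)
    obtain ⟨e, he, hee⟩ := exists_enum ((Finset.range L).filter fun x => lis g x = y)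
    have hmem : ∀ s ≤ N, e s < L ∧ lis g (e s) = y := by
      intro s hs
      have := he s (by omega)
      rw [Finset.mem_filter, Finset.mem_range] at this
      exact this
    refine ⟨e, fun s hs => (hmem s hs).1, fun s s' h h' => hee s s' h (by omega), Or.inr ?_⟩
    intro s s' hs hs'
    have h1 := hee s s' hs (by omega)
    by_contra hcon
    push Not at hcon
    rcases Nat.eq_or_lt_of_le hcon with h2 | h2
    · have := hg _ (hmem s (by omega)).1 _ (hmem s' hs').1 h2
      omega
    · have := lis_lt g h1 h2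
      rw [(hmem s (by omega)).2, (hmem s' hs').2] at this
      omega

/-- Erdős–Szekeres for several orders. -/
theorem erdos_szekeres_multi (N : ℕ) : ∀ (m : ℕ) (g : Fin m → ℕ → ℕ) (M : Finset ℕ),
    N ^ 2 ^ m < M.card → (∀ c, ∀ i ∈ M, ∀ j ∈ M, g c i = g c j → i = j) →
    ∃ e : ℕ → ℕ, (∀ s ≤ N, e s ∈ M) ∧ (∀ s s', s < s' → s' ≤ N → e s < e s') ∧
      ∀ c, (∀ s s', s < s' → s' ≤ N → g c (e s) < g c (e s')) ∨
        (∀ s s', s < s' → s' ≤ N → g c (e s') < g c (e s)) := by
  classical
  intro m
  induction m generalizing N with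
  | zero =>
    intro g M hM _
    rw [pow_zero, pow_one] at hM
    obtain ⟨e, he, hee⟩ := exists_enum M
    exact ⟨e, fun s hs => he s (by omega), fun s s' h h' => hee s s' h (by omega),
      fun c => c.elim0⟩
  | succ m ih =>
    intro g M hM hg
    obtain ⟨e, he, hee, heg⟩ := ih (N ^ 2) (fun c => g c.succ) M (by
      rw [← pow_mul, ← pow_succ']
      exact hM) (fun c => hg c.succ)
    obtain ⟨t, ht, htt, htg⟩ := erdos_szekeres N (N ^ 2 + 1) (by rw [sq]; omega)
      (fun s => g 0 (e s)) (by
        intro i hi j hj hij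
        have h1 := hg 0 _ (he i (by omega)) _ (he j (by omega)) hij
        by_contra hne
        rcases Nat.lt_or_gt_of_ne hne with h | h
        · have := hee i j h (by omega)
          omega
        · have := hee j i h (by omega)
          omega)
    refine ⟨fun s => e (t s), fun s hs => he _ (Nat.lt_succ_iff.1 (ht s hs)),
      fun s s' h h' => hee _ _ (htt s s' h h') (Nat.lt_succ_iff.1 (ht s' h')), ?_⟩
    intro c
    refine Fin.cases ?_ (fun c => ?_) c
    · exact htg
    · rcases heg c with h1 | h1
      · exact Or.inl fun s s' h h' => h1 _ _ (htt s s' h h') (Nat.lt_succ_iff.1 (ht s' h'))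
      · exact Or.inr fun s s' h h' => h1 _ _ (htt s s' h h') (Nat.lt_succ_iff.1 (ht s' h'))

end Pool.Agent.Helper4.RO
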