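import Mathlib
import Pool.Agent.Helper4.RO.ES
import Pool.Agent.Helper4.RO.Sum

/-!
# Sums of products of chains in different orders
-/

namespace Pool.Agent.Helper4.RO

set_option linter.unusedSectionVars false
set_option linter.unusedDecidableInType false

open Matrix

/-! ### Tensor products and direct sums -/

section Tensor

variable {R : Type*} [CommRing R] {κ : Type*} [Fintype κ] [DecidableEq κ] {k : ℕ}

/-- The tensor product of `k` matrices. -/
def tq (T : Fin k → Matrix κ κ R) : Matrix (Fin k → κ) (Fin k → κ) R :=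
  Matrix.of fun I J => ∏ b, T b (I b) (J b)

theorem tq_apply (T : Fin k → Matrix κ κ R) (I J : Fin k → κ) :
    tq T I J = ∏ b, T b (I b) (J b) := rfl

theorem tq_mul (A B : Fin k → Matrix κ κ R) : tq (fun b => A b * B b) = tq A * tq B := by
  ext I J
  rw [tq_apply, Matrix.mul_apply]
  simp only [Matrix.mul_apply, tq_apply]
  rw [Finset.prod_univ_sum, Fintype.piFinset_univ]
  exact Finset.sum_congr rfl fun K _ => Finset.prod_mul_distrib

theorem tq_one : tq (fun _ : Fin k => (1 : Matrix κ κ R)) = 1 := by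
  ext I J
  rw [tq_apply]
  by_cases h : I = J
  · rw [h, Matrix.one_apply_eq]
    exact Finset.prod_eq_one fun a _ => Matrix.one_apply_eq _
  · rw [Matrix.one_apply_ne h]
    obtain ⟨a, ha⟩ := Function.ne_iff.1 h
    exact Finset.prod_eq_zero (Finset.mem_univ a) (Matrix.one_apply_ne ha)

theorem tq_map {S : Type*} [CommRing S] (φ : R →+* S) (A : Fin k → Matrix κ κ R) :
    (tq A).map φ = tq fun b => (A b).map φ := by
  ext I J
  rw [Matrix.map_apply, tq_apply, tq_apply, map_prod]
  rfl

theorem seg_tq (A : ℕ → Fin k → Matrix κ κ R) (i j : ℕ) :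
    seg (fun l => tq (A l)) i j = tq fun b => seg (fun l => A l b) i j := by
  unfold seg
  generalize j - i = m
  induction m with
  | zero => exact tq_one.symm
  | succ m ih => simp only [pr]; rw [tq_mul, ih]

theorem seg_bd {o : Type*} [Fintype o] [DecidableEq o] (A : ℕ → o → Matrix κ κ R) (i j : ℕ) :
    seg (fun l => Matrix.blockDiagonal (A l)) i j =
      Matrix.blockDiagonal fun e => seg (fun l => A l e) i j := by
  unfold seg
  generalize j - i = m
  induction m with
  | zero => exact Matrix.blockDiagonal_one.symm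
  | succ m ih => simp only [pr]; rw [Matrix.blockDiagonal_mul, ih]

theorem seg_group (A : ℕ → Matrix κ κ R) (st : ℕ → ℕ) (hst : ∀ s, st s ≤ st (s + 1)) {a c : ℕ}
    (hac : a ≤ c) : seg (fun s => seg A (st s) (st (s + 1))) a c = seg A (st a) (st c) := by
  induction c, hac using Nat.le_induction with
  | base => rw [seg_self, seg_self]
  | succ c hc ih =>
    rw [seg_succ _ hc, ih, seg_mul _ (monotone_nat_of_le_succ hst hc) (hst c)]

end Tensor

theorem tq_rank_le {F : Type*} [Field F] {κ : Type*} [Fintype κ] [DecidableEq κ] {k : ℕ}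
    (A B : Fin k → Matrix κ κ F) (h : ∀ b, (A b).rank ≤ (B b).rank) :
    (tq A).rank ≤ (tq B).rank := by
  choose P Q hPQ using fun b => exists_of_rank_le (A b) (B b) (h b)
  have h1 : tq A = tq P * tq B * tq Q := by
    rw [← tq_mul, ← tq_mul]
    congr 1
    funext b
    exact hPQ b
  rw [h1]
  exact rank_mul_mul_le _ _ _

section

variable {F : Type*} [Field F]

/-! ### The modification lemma for linear functionals -/

theorem modif_fun [Infinite F] {κ : Type*} [Fintype κ] [DecidableEq κ]
    (M : ℕ → Matrix κ κ (Polynomial F)) (n W : ℕ)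
    (hW : Fintype.card κ * Fintype.card κ ≤ W) (X₀ : ℕ → F) (lam : κ → κ → F)
    (hmax : ∀ i j, 1 ≤ i → i ≤ j → j < n → ∀ X,
      (seg (ev M X) i j).rank ≤ (seg (ev M X₀) i j).rank)
    (hne : ∃ X, ∑ a, ∑ b, lam a b * seg (ev M X) 0 n a b ≠ 0) :
    ∃ s ⊆ Finset.range n, s.card ≤ Tb W ∧ ∃ X, (∀ l ∉ s, X l = X₀ l) ∧
      ∑ a, ∑ b, lam a b * seg (ev M X) 0 n a b ≠ 0 := by
  have hseg : ∀ X i j, seg (ev (fun l => Matrix.blockDiagonal fun _ : κ => M l) X) i j =
      Matrix.blockDiagonal fun _ : κ => seg (ev M X) i j := by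
    intro X i j
    rw [← seg_bd]
    apply seg_congr
    intro l _ _
    exact Matrix.blockDiagonal_map _ _ Polynomial.eval_zero
  have hval : ∀ X, val (fun l => Matrix.blockDiagonal fun _ : κ => M l) n (fun p => lam p.1 p.2)
      (fun p => if p.1 = p.2 then 1 else 0) X = ∑ a, ∑ b, lam a b * seg (ev M X) 0 n a b := by
    intro X
    rw [val, hseg, dotProduct, Fintype.sum_prod_type]
    refine Finset.sum_congr rfl fun a _ => Finset.sum_congr rfl fun b _ => ?_
    congr 1
    rw [Matrix.mulVec, dotProduct, Fintype.sum_prod_type, Finset.sum_eq_single b]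
    · rw [Finset.sum_eq_single b]
      · rw [Matrix.blockDiagonal_apply_eq, if_pos rfl, mul_one]
      · intro b' _ hb'
        rw [Matrix.blockDiagonal_apply_ne _ _ _ (Ne.symm hb'), zero_mul]
      · intro h
        exact absurd (Finset.mem_univ b) h
    · intro a' _ ha'
      refine Finset.sum_eq_zero fun b' _ => ?_
      by_cases hb : b = b'
      · subst hb
        rw [if_neg ha', mul_zero]
      · rw [Matrix.blockDiagonal_apply_ne _ _ _ hb, zero_mul]
    · intro h
      exact absurd (Finset.mem_univ b) h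
  have h := modif (fun l => Matrix.blockDiagonal fun _ : κ => M l) n W
    (by rwa [Fintype.card_prod]) X₀ (fun p => lam p.1 p.2) (fun p => if p.1 = p.2 then 1 else 0)
    (by
      intro i j hi hij hj X
      rw [hseg, hseg]
      exact rank_blockDiagonal_le _ _ fun _ => hmax i j hi hij hj X)
    (by
      obtain ⟨X, hX⟩ := hne
      exact ⟨X, by rwa [hval]⟩)
  obtain ⟨s, hs, hc, X, hX, hX'⟩ := h
  rw [hval] at hX'
  exact ⟨s, hs, hc, X, hX, hX'⟩

/-! ### Restriction of a chain to few variables -/

variable {κ : Type*} [Fintype κ] [DecidableEq κ]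

/-- The borders of the groups. -/
def bord (p : ℕ → ℕ) (N n s : ℕ) : ℕ := if s = 0 then 0 else if s ≤ N then p (s - 1) + 1 else n

theorem bord_zero (p : ℕ → ℕ) (N n : ℕ) : bord p N n 0 = 0 := if_pos rfl

theorem bord_succ (p : ℕ → ℕ) {N : ℕ} (n : ℕ) {s : ℕ} (hs : s < N) :
    bord p N n (s + 1) = p s + 1 := by
  rw [bord, if_neg (by omega), if_pos (by omega), Nat.add_sub_cancel]

theorem bord_last (p : ℕ → ℕ) {N : ℕ} (n : ℕ) {s : ℕ} (hs : N < s) : bord p N n s = n := by
  rw [bord, if_neg (by omega), if_neg (by omega)]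

theorem bord_mono {p : ℕ → ℕ} {N n : ℕ} (hp : ∀ s < N, p s < n)
    (hp' : ∀ s s', s < s' → s' < N → p s < p s') (s : ℕ) : bord p N n s ≤ bord p N n (s + 1) := by
  rcases Nat.lt_or_ge s N with h | h
  · rw [bord_succ p n h]
    rcases Nat.eq_zero_or_pos s with h0 | h0
    · rw [h0, bord_zero]
      exact Nat.zero_le _
    · obtain ⟨s', rfl⟩ := Nat.exists_eq_succ_of_ne_zero (Nat.pos_iff_ne_zero.1 h0)
      rw [Nat.succ_eq_add_one, bord_succ p n (by omega)]
      have := hp' s' (s' + 1) (Nat.lt_succ_self _) h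
      omega
  · rw [bord_last p n (s := s + 1) (by omega)]
    rcases Nat.eq_or_lt_of_le h with h1 | h1
    · rcases Nat.eq_zero_or_pos s with h0 | h0
      · rw [h0, bord_zero]
        exact Nat.zero_le _
      · obtain ⟨s', rfl⟩ := Nat.exists_eq_succ_of_ne_zero (Nat.pos_iff_ne_zero.1 h0)
        rw [Nat.succ_eq_add_one, bord_succ p n (by omega)]
        exact hp s' (by omega)
    · rw [bord_last p n h1]

/-- The point with the values `X s` at the variables `i s`, `s < N`, and `E` elsewhere. -/
noncomputable def setp (i : ℕ → ℕ) (N : ℕ) (X E : ℕ → F) (j : ℕ) : F :=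
  open Classical in if h : ∃ s, s < N ∧ i s = j then X h.choose else E j

theorem setp_mem {i : ℕ → ℕ} {N : ℕ} (hi : ∀ s < N, ∀ s' < N, i s = i s' → s = s') (X E : ℕ → F)
    {s : ℕ} (hs : s < N) : setp i N X E (i s) = X s := by
  have h : ∃ s', s' < N ∧ i s' = i s := ⟨s, hs, rfl⟩
  rw [setp, dif_pos h, hi _ h.choose_spec.1 _ hs h.choose_spec.2]

theorem setp_not {i : ℕ → ℕ} {N : ℕ} (X E : ℕ → F) {j : ℕ} (hj : ∀ s < N, i s ≠ j) :
    setp i N X E j = E j := by
  rw [setp, dif_neg]
  rintro ⟨s, hs, h⟩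
  exact hj s hs h

/-- The grouped layers. -/
noncomputable def rl (M : ℕ → Matrix κ κ (Polynomial F)) (v : ℕ → ℕ) (E : ℕ → F) (p : ℕ → ℕ)
    (N n s : ℕ) : Matrix κ κ (Polynomial F) :=
  seg (fun l => if s < N ∧ l = p s then M l else
    (M l).map fun q => Polynomial.C (q.eval (E (v l)))) (bord p N n s) (bord p N n (s + 1))

theorem rl_eval {M : ℕ → Matrix κ κ (Polynomial F)} {v : ℕ → ℕ} {E : ℕ → F} {p i : ℕ → ℕ}
    {N n : ℕ} (hv : IsOrder n n v) (hi : ∀ s < N, ∀ s' < N, i s = i s' → s = s')
    (hp : ∀ s < N, p s < n ∧ v (p s) = i s) (hp' : ∀ s s', s < s' → s' < N → p s < p s')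
    (X : ℕ → F) (s : ℕ) : (rl M v E p N n s).map (Polynomial.eval (X s)) =
      segx M v (setp i N X E) (bord p N n s) (bord p N n (s + 1)) := by
  have hmono := bord_mono (fun s hs => (hp s hs).1) hp'
  have hn : bord p N n (s + 1) ≤ n := by
    rcases Nat.lt_or_ge s N with h | h
    · rw [bord_succ p n h]
      exact (hp s h).1
    · rw [bord_last p n (by omega)]
  have h1 := seg_map (fun l => if s < N ∧ l = p s then M l else
    (M l).map fun q => Polynomial.C (q.eval (E (v l)))) (Polynomial.evalRingHom (X s))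
    (bord p N n s) (bord p N n (s + 1))
  refine Eq.trans h1 ?_
  apply seg_congr
  intro l hl hl'
  by_cases h : s < N ∧ l = p s
  · rw [if_pos h, ev, h.2, (hp s h.1).2, setp_mem hi X E h.1]
    rfl
  · rw [if_neg h, ev, setp_not]
    · ext a b
      simp only [Matrix.map_apply, Polynomial.coe_evalRingHom, Polynomial.eval_C]
    · intro s' hs' hs'l
      have h2 : p s' = l := hv.inj _ (hp s' hs').1 _ (by omega) ((hp s' hs').2.trans hs'l)
      rcases Nat.lt_trichotomy s' s with h3 | h3 | h3
      · have h4 : p s' + 1 ≤ bord p N n s := by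
          rw [← bord_succ p n hs']
          exact monotone_nat_of_le_succ hmono h3
        omega
      · subst h3
        exact h ⟨hs', h2.symm⟩
      · have h4 : bord p N n (s + 1) ≤ p s' := by
          rw [bord_succ p n (by omega)]
          exact hp' s s' h3 hs'
        omega

theorem seg_rl {M : ℕ → Matrix κ κ (Polynomial F)} {v : ℕ → ℕ} {E : ℕ → F} {p i : ℕ → ℕ}
    {N n : ℕ} (hv : IsOrder n n v) (hi : ∀ s < N, ∀ s' < N, i s = i s' → s = s')
    (hp : ∀ s < N, p s < n ∧ v (p s) = i s) (hp' : ∀ s s', s < s' → s' < N → p s < p s')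
    (X : ℕ → F) {a c : ℕ} (hac : a ≤ c) :
    seg (fun s => (rl M v E p N n s).map (Polynomial.eval (X s))) a c =
      segx M v (setp i N X E) (bord p N n a) (bord p N n c) := by
  rw [segx, ← seg_group _ (bord p N n) (bord_mono (fun s hs => (hp s hs).1) hp') hac]
  congr 1
  funext s
  exact rl_eval hv hi hp hp' X s

theorem bord_le {p : ℕ → ℕ} {N n : ℕ} (hp : ∀ s < N, p s < n) (s : ℕ) : bord p N n s ≤ n := by
  rcases Nat.eq_zero_or_pos s with h0 | h0
  · rw [h0, bord_zero]
    exact Nat.zero_le _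
  · obtain ⟨s', rfl⟩ := Nat.exists_eq_succ_of_ne_zero (Nat.pos_iff_ne_zero.1 h0)
    rcases Nat.lt_or_ge s' N with h | h
    · rw [Nat.succ_eq_add_one, bord_succ p n h]
      exact hp s' h
    · rw [Nat.succ_eq_add_one, bord_last p n (by omega)]

/-! ### The functional -/

variable {o : Type*} [Fintype o] [DecidableEq o] {k : ℕ}

/-- The value of a linear functional on the direct sum over `e` of the tensor products of the
`T e b`. -/
def fval (lam : o → (Fin k → κ × κ) → F) (T : o → Fin k → Matrix κ κ F) : F :=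
  ∑ e, ∑ K, lam e K * ∏ b, T e b (K b).1 (K b).2

theorem fval_eq (lam : o → (Fin k → κ × κ) → F) (T : o → Fin k → Matrix κ κ F) :
    fval lam T = ∑ a : (Fin k → κ) × o, ∑ b : (Fin k → κ) × o,
      lam a.2 (fun c => (a.1 c, b.1 c)) * (Matrix.blockDiagonal fun e => tq (T e)) a b := by
  rw [fval, Fintype.sum_prod_type_right]
  refine Finset.sum_congr rfl fun e _ => ?_
  have h1 : ∀ I : Fin k → κ, ∑ b : (Fin k → κ) × o, lam e (fun c => (I c, b.1 c)) *
      (Matrix.blockDiagonal fun e => tq (T e)) (I, e) b =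
      ∑ J : Fin k → κ, lam e (fun c => (I c, J c)) * ∏ b, T e b (I b) (J b) := by
    intro I
    rw [Fintype.sum_prod_type]
    refine Finset.sum_congr rfl fun J _ => ?_
    rw [Finset.sum_eq_single e]
    · rw [Matrix.blockDiagonal_apply_eq, tq_apply]
    · intro e' _ he'
      rw [Matrix.blockDiagonal_apply_ne _ _ _ (Ne.symm he'), mul_zero]
    · intro h
      exact absurd (Finset.mem_univ e) h
  simp only [h1]
  rw [← Equiv.sum_comp (Equiv.arrowProdEquivProdArrow (Fin k) (fun _ => κ) (fun _ => κ)).symm,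
    Fintype.sum_prod_type]
  rfl

/-- Transposition of some of the matrices. -/
theorem fval_transpose (ε : o → Fin k → Prop) [∀ e b, Decidable (ε e b)]
    (lam : o → (Fin k → κ × κ) → F) (T : o → Fin k → Matrix κ κ F) :
    fval lam (fun e b => if ε e b then (T e b)ᵀ else T e b) =
      fval (fun e K => lam e fun b => if ε e b then (K b).swap else K b) T := by
  rw [fval, fval]
  refine Finset.sum_congr rfl fun e _ => ?_
  have hinv : Function.Involutive fun (K : Fin k → κ × κ) b => if ε e b then (K b).swap else K b := by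
    intro K
    funext b
    dsimp only
    split_ifs
    · exact Prod.swap_swap _
    · rfl
  rw [← Equiv.sum_comp hinv.toPerm]
  refine Finset.sum_congr rfl fun K _ => ?_
  rw [Function.Involutive.coe_toPerm]
  congr 1
  refine Finset.prod_congr rfl fun b _ => ?_
  split_ifs
  · rfl
  · rfl

end

end Pool.Agent.Helper4.RO
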