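import Mathlib
import Pool.Agent.Helper4.RO.Prod
import Pool.Agent.Helper4.RO.Final

/-!
# Near points for sums of products of chains in different orders
-/

namespace Pool.Agent.Helper4.RO

set_option linter.unusedSectionVars false
set_option linter.unusedDecidableInType false

open Matrix

section

variable {F : Type*} [Field F] {κ : Type*} [Fintype κ] [DecidableEq κ]

/-! ### Reversal -/

/-- The reversed chain. -/
def Chain.rev (n : ℕ) (C : Chain F κ) : Chain F κ where
  v := fun l => C.v (n - 1 - l)
  M := fun l => (C.M (n - 1 - l))ᵀ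
  u := C.u
  w := C.w

theorem IsOrder.rev {n : ℕ} {C : Chain F κ} (hv : IsOrder n n C.v) : IsOrder n n (C.rev n).v where
  lt l hl := hv.lt _ (by omega)
  inj l hl l' hl' h := by
    have := hv.inj _ (by omega) _ (by omega) h
    omega

theorem segx_rev {n : ℕ} (C : Chain F κ) (x : ℕ → F) {a c : ℕ} (hac : a ≤ c) (hc : c ≤ n) :
    segx (C.rev n).M (C.rev n).v x a c = (segx C.M C.v x (n - c) (n - a))ᵀ := by
  induction c, hac using Nat.le_induction with
  | base => rw [segx, segx, seg_self, seg_self, Matrix.transpose_one]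
  | succ c hac ih =>
    have h1 := ih (by omega)
    have h2 : segx C.M C.v x (n - (c + 1)) (n - a) =
        ev C.M (fun l => x (C.v l)) (n - (c + 1)) * segx C.M C.v x (n - c) (n - a) := by
      rw [← segx_mul C.M C.v x (show n - (c + 1) ≤ n - c by omega) (show n - c ≤ n - a by omega)]
      congr 1
      have h3 : n - c = n - (c + 1) + 1 := by omega
      rw [h3, segx, seg_succ _ le_rfl, seg_self, Matrix.one_mul]
    rw [h2, Matrix.transpose_mul, ← h1, segx, seg_succ _ hac]
    rw [segx]
    congr 1
    have h4 : n - (c + 1) = n - 1 - c := by omega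
    rw [h4]
    rfl

theorem Good.rev {n : ℕ} {C : Chain F κ} {x₀ : ℕ → F} (h : Good n C.v C.M x₀) :
    Good n (C.rev n).v (C.rev n).M x₀ := by
  intro i j hij hj x
  rw [segx_rev C x hij hj, segx_rev C x₀ hij hj, Matrix.rank_transpose, Matrix.rank_transpose]
  exact h _ _ (by omega) (by omega) x

variable {o : Type*} [Fintype o] [DecidableEq o] {k : ℕ}

/-- The value of a family of chains. -/
def cval (n : ℕ) (lam : o → (Fin k → κ × κ) → F) (C : o → Fin k → Chain F κ) (x : ℕ → F) : F :=
  fval lam fun e b => segx (C e b).M (C e b).v x 0 n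

theorem cval_poly (n : ℕ) (lam : o → (Fin k → κ × κ) → F) (C : o → Fin k → Chain F κ) :
    IsPoly fun x => cval n lam C x :=
  IsPoly.sum _ fun _ _ => IsPoly.sum _ fun _ _ => (IsPoly.const _).mul
    (IsPoly.prod _ fun _ _ => MIsPoly.segx _ _ 0 n _ _)

/-- The step for increasing positions. -/
theorem prod_step_inc [Infinite F] {n N W : ℕ} (lam : o → (Fin k → κ × κ) → F)
    (C : o → Fin k → Chain F κ)
    (hW : (Fintype.card κ ^ k * Fintype.card o) ^ 2 ≤ W) (hv : ∀ e b, IsOrder n n (C e b).v)
    (E : ℕ → F) (hgood : ∀ e b, Good n (C e b).v (C e b).M E) (i : ℕ → ℕ)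
    (hi : ∀ s < N, ∀ s' < N, i s = i s' → s = s') (p : o → Fin k → ℕ → ℕ)
    (hp : ∀ e b, ∀ s < N, p e b s < n ∧ (C e b).v (p e b s) = i s)
    (hp' : ∀ e b s s', s < s' → s' < N → p e b s < p e b s') (x : ℕ → F)
    (hx : ∀ j, (∀ s < N, i s ≠ j) → x j = E j) (hne : cval n lam C x ≠ 0) :
    ∃ S ⊆ Finset.range N, S.card ≤ Tb W ∧ ∃ x', (∀ j, (∀ s ∈ S, i s ≠ j) → x' j = E j) ∧
      cval n lam C x' ≠ 0 := by
  classical
  set M' : ℕ → Matrix ((Fin k → κ) × o) ((Fin k → κ) × o) (Polynomial F) := fun s =>
    Matrix.blockDiagonal fun e => tq fun b => rl (C e b).M (C e b).v E (p e b) N n s with hM'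
  have hseg : ∀ (X : ℕ → F) (a c : ℕ), a ≤ c → seg (ev M' X) a c =
      Matrix.blockDiagonal fun e => tq fun b => segx (C e b).M (C e b).v (setp i N X E)
        (bord (p e b) N n a) (bord (p e b) N n c) := by
    intro X a c hac
    have h1 : ev M' X = fun s => Matrix.blockDiagonal fun e => tq fun b =>
        (rl (C e b).M (C e b).v E (p e b) N n s).map (Polynomial.eval (X s)) := by
      funext s
      rw [ev, hM', Matrix.blockDiagonal_map _ _ Polynomial.eval_zero]
      congr 1
      funext e
      exact tq_map (Polynomial.evalRingHom (X s)) _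
    rw [h1, seg_bd]
    congr 1
    funext e
    rw [seg_tq]
    congr 1
    funext b
    exact seg_rl (hv e b) hi (hp e b) (hp' e b) X hac
  have hval : ∀ X : ℕ → F, ∑ a : (Fin k → κ) × o, ∑ b : (Fin k → κ) × o,
      lam a.2 (fun c => (a.1 c, b.1 c)) * seg (ev M' X) 0 (N + 1) a b =
      cval n lam C (setp i N X E) := by
    intro X
    rw [cval, fval_eq]
    refine Finset.sum_congr rfl fun a _ => Finset.sum_congr rfl fun b _ => ?_
    rw [hseg X 0 (N + 1) (Nat.zero_le _)]
    simp only [bord_zero, bord_last _ n (Nat.lt_succ_self N)]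
  have hEself : ∀ X : ℕ → F, (∀ s < N, X s = E (i s)) → setp i N X E = E := by
    intro X hX
    funext j
    by_cases h : ∃ s < N, i s = j
    · obtain ⟨s, hs, rfl⟩ := h
      rw [setp_mem hi X E hs, hX s hs]
    · exact setp_not X E fun s hs hsj => h ⟨s, hs, hsj⟩
  obtain ⟨S', hS', hc, X, hX, hX'⟩ := modif_fun M' (N + 1) W (by
      rw [Fintype.card_prod, Fintype.card_fun, Fintype.card_fin, ← sq]
      exact hW) (fun s => E (i s))
    (fun a b => lam a.2 (fun c => (a.1 c, b.1 c))) (by
      intro a c ha hac hc X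
      rw [hseg X a c hac, hseg _ a c hac, hEself _ fun _ _ => rfl]
      apply rank_blockDiagonal_le
      intro e
      apply tq_rank_le
      intro b
      exact hgood e b _ _ (monotone_nat_of_le_succ (bord_mono (fun s hs => (hp e b s hs).1)
        (hp' e b)) hac) (bord_le (fun s hs => (hp e b s hs).1) c) _)
    ⟨fun s => x (i s), by
      rw [hval]
      have h1 : setp i N (fun s => x (i s)) E = x := by
        funext j
        by_cases h : ∃ s < N, i s = j
        · obtain ⟨s, hs, rfl⟩ := h
          rw [setp_mem hi _ E hs]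
        · rw [setp_not _ E fun s hs hsj => h ⟨s, hs, hsj⟩]
          exact (hx j fun s hs hsj => h ⟨s, hs, hsj⟩).symm
      rw [h1]
      exact hne⟩
  rw [hval] at hX'
  refine ⟨S'.filter (· < N), ?_, (Finset.card_filter_le _ _).trans hc, _, ?_, hX'⟩
  · intro s hs
    exact Finset.mem_range.2 (Finset.mem_filter.1 hs).2
  · intro j hj
    by_cases h : ∃ s < N, i s = j
    · obtain ⟨s, hs, rfl⟩ := h
      rw [setp_mem hi X E hs]
      apply hX
      intro hsS
      exact hj s (Finset.mem_filter.2 ⟨hsS, hs⟩) rfl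
    · exact setp_not X E fun s hs hsj => h ⟨s, hs, hsj⟩

/-- Substitution of constants for some coordinates. -/
theorem IsPoly.mix {f : (ℕ → F) → F} (hf : IsPoly f) (J : Finset ℕ) (x₀ : ℕ → F) :
    IsPoly fun x => f (RO.mix J x x₀) := by
  obtain ⟨p, hp⟩ := hf
  refine ⟨MvPolynomial.aeval (fun i => if i ∈ J then (MvPolynomial.X i : MvPolynomial ℕ F)
    else MvPolynomial.C (x₀ i)) p, fun x => ?_⟩
  change f (RO.mix J x x₀) = _
  rw [hp]
  have h : (MvPolynomial.eval x).comp (MvPolynomial.aeval (fun i => if i ∈ J then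
      (MvPolynomial.X i : MvPolynomial ℕ F) else MvPolynomial.C (x₀ i))).toRingHom =
      MvPolynomial.eval (RO.mix J x x₀) := by
    apply MvPolynomial.ringHom_ext
    · intro a
      simp
    · intro i
      simp only [AlgHom.toRingHom_eq_coe, RingHom.coe_comp, RingHom.coe_coe, Function.comp_apply,
        MvPolynomial.aeval_X, MvPolynomial.eval_X, RO.mix]
      split_ifs <;> simp
  exact (RingHom.congr_fun h p).symm

/-- One step towards fewer modifications. -/
theorem prod_step [Infinite F] {n W N : ℕ} (lam : o → (Fin k → κ × κ) → F)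
    (C : o → Fin k → Chain F κ)
    (hW : (Fintype.card κ ^ k * Fintype.card o) ^ 2 ≤ W) (hN : Tb W ≤ N)
    (hv : ∀ e b, IsOrder n n (C e b).v)
    (x₀ : ℕ → F) (hgood : ∀ e b, Good n (C e b).v (C e b).M x₀) (M : Finset ℕ)
    (hM : M ⊆ Finset.range n) (hMc : N ^ 2 ^ (Fintype.card o * k) < M.card) (x₁ : ℕ → F)
    (hx₁ : ∀ j ∉ M, x₁ j = x₀ j) (hne : cval n lam C x₁ ≠ 0) :
    ∃ M' ⊆ Finset.range n, M'.card < M.card ∧ ∃ x', (∀ j ∉ M', x' j = x₀ j) ∧
      cval n lam C x' ≠ 0 := by
  classical
  -- positions
  have hpos : ∀ e b, ∀ j, j < n → ∃ l, l < n ∧ (C e b).v l = j := by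
    intro e b j hj
    have h1 : j ∈ pre (C e b).v n := by
      rw [pre_full (hv e b)]
      exact Finset.mem_range.2 hj
    obtain ⟨l, hl, h⟩ := Finset.mem_image.1 h1
    exact ⟨l, Finset.mem_range.1 hl, h⟩
  choose! pos hpos1 hpos2 using hpos
  have hcard : Fintype.card (o × Fin k) = Fintype.card o * k := by
    rw [Fintype.card_prod, Fintype.card_fin]
  obtain ⟨i, hiM, hii, him⟩ := erdos_szekeres_multi N (Fintype.card o * k)
    (fun c => pos ((Fintype.equivFinOfCardEq hcard).symm c).1
      ((Fintype.equivFinOfCardEq hcard).symm c).2) M hMc (by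
      intro c j hj j' hj' h
      have h1 := hpos2 ((Fintype.equivFinOfCardEq hcard).symm c).1
        ((Fintype.equivFinOfCardEq hcard).symm c).2 j (Finset.mem_range.1 (hM hj))
      rw [h, hpos2 _ _ j' (Finset.mem_range.1 (hM hj'))] at h1
      exact h1.symm)
  have him' : ∀ e b, (∀ s s', s < s' → s' ≤ N → pos e b (i s) < pos e b (i s')) ∨
      (∀ s s', s < s' → s' ≤ N → pos e b (i s') < pos e b (i s)) := by
    intro e b
    have h1 := him (Fintype.equivFinOfCardEq hcard (e, b))
    simpa only [Equiv.symm_apply_apply] using h1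
  have hin : ∀ s ≤ N, i s < n := fun s hs => Finset.mem_range.1 (hM (hiM s hs))
  have hi : ∀ s < N + 1, ∀ s' < N + 1, i s = i s' → s = s' := by
    intro s hs s' hs' h
    by_contra hne
    rcases Nat.lt_or_gt_of_ne hne with h' | h'
    · have := hii s s' h' (by omega)
      omega
    · have := hii s' s h' (by omega)
      omega
  set I : Finset ℕ := (Finset.range (N + 1)).image i with hI
  have hIM : I ⊆ M := by
    intro j hj
    obtain ⟨s, hs, rfl⟩ := Finset.mem_image.1 hj
    exact hiM s (Nat.lt_succ_iff.1 (Finset.mem_range.1 hs))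
  have hIc : I.card = N + 1 := by
    rw [hI, Finset.card_image_of_injOn, Finset.card_range]
    intro a ha b hb h
    rw [Finset.coe_range, Set.mem_Iio] at ha hb
    exact hi a ha b hb h
  set J := M \ I with hJ
  -- the environment
  choose g hg1 hg2 hg3 using fun e b => (hgood e b).exists_poly
  have hJoin : Joined {x : ℕ → F | ∀ j ∈ {j | j ∉ M}, x j = x₀ j} := joined_agree x₀ _
  have hmixself : mix J x₀ x₀ = x₀ := by
    funext j
    rw [mix]
    split_ifs <;> rfl
  obtain ⟨x, hx, hx'⟩ := hJoin.mul
    (IsPoly.prod Finset.univ fun e _ => IsPoly.prod Finset.univ fun b _ => (hg1 e b).mix J x₀)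
    (cval_poly n lam C) ⟨x₀, fun _ _ => rfl, by
      refine Finset.prod_ne_zero_iff.2 fun e _ => Finset.prod_ne_zero_iff.2 fun b _ => ?_
      rw [hmixself]
      exact hg2 e b⟩ ⟨x₁, fun j hj => hx₁ j hj, hne⟩
  set E := mix J x x₀ with hE
  have hEgood : ∀ e b, Good n (C e b).v (C e b).M E := fun e b => hg3 e b _
    (Finset.prod_ne_zero_iff.1 (Finset.prod_ne_zero_iff.1 (left_ne_zero_of_mul hx') e
      (Finset.mem_univ e)) b (Finset.mem_univ b))
  have hxE : ∀ j, (∀ s < N + 1, i s ≠ j) → x j = E j := by
    intro j hj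
    rw [hE, mix]
    split_ifs with h
    · rfl
    · apply hx
      intro hjM
      apply h
      rw [hJ, Finset.mem_sdiff]
      refine ⟨hjM, fun hjI => ?_⟩
      obtain ⟨s, hs, h'⟩ := Finset.mem_image.1 hjI
      exact hj s (Finset.mem_range.1 hs) h'
  -- reversal
  set ε : o → Fin k → Prop := fun e b =>
    ¬ ∀ s s', s < s' → s' ≤ N → pos e b (i s) < pos e b (i s') with hε
  set C' : o → Fin k → Chain F κ := fun e b => if ε e b then (C e b).rev n else C e b with hC'
  set lam' : o → (Fin k → κ × κ) → F := fun e K =>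
    lam e fun b => if ε e b then (K b).swap else K b with hlam'
  have hcval : ∀ z, cval n lam C z = cval n lam' C' z := by
    intro z
    rw [cval, cval, hlam', ← fval_transpose]
    congr 1
    funext e b
    by_cases h : ε e b
    · rw [if_pos h]
      have h1 : C' e b = (C e b).rev n := if_pos h
      rw [h1, segx_rev (C e b) z (Nat.zero_le n) le_rfl, Matrix.transpose_transpose, Nat.sub_self,
        Nat.sub_zero]
    · rw [if_neg h]
      have h1 : C' e b = C e b := if_neg h
      rw [h1]
  rw [hcval] at hx'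
  obtain ⟨S, hS, hSc, x', hx'1, hx'2⟩ := prod_step_inc (N := N + 1) lam' C' hW
    (by
      intro e b
      by_cases h : ε e b
      · rw [show C' e b = (C e b).rev n from if_pos h]
        exact (hv e b).rev
      · rw [show C' e b = C e b from if_neg h]
        exact hv e b)
    E (by
      intro e b
      by_cases h : ε e b
      · rw [show C' e b = (C e b).rev n from if_pos h]
        exact (hEgood e b).rev
      · rw [show C' e b = C e b from if_neg h]
        exact hEgood e b)
    i hi (fun e b s => if ε e b then n - 1 - pos e b (i s) else pos e b (i s))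
    (by
      intro e b s hs
      have h1 := hpos1 e b _ (hin s (Nat.lt_succ_iff.1 hs))
      have h2 := hpos2 e b _ (hin s (Nat.lt_succ_iff.1 hs))
      by_cases h : ε e b
      · rw [show C' e b = (C e b).rev n from if_pos h]
        simp only [if_pos h]
        refine ⟨by omega, ?_⟩
        change (C e b).v (n - 1 - (n - 1 - pos e b (i s))) = i s
        rw [show n - 1 - (n - 1 - pos e b (i s)) = pos e b (i s) by omega]
        exact h2
      · rw [show C' e b = C e b from if_neg h]
        simp only [if_neg h]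
        exact ⟨h1, h2⟩)
    (by
      intro e b s s' hs hs'
      have h1 := hpos1 e b _ (hin s (by omega))
      have h1' := hpos1 e b _ (hin s' (by omega))
      by_cases h : ε e b
      · simp only [if_pos h]
        rcases him' e b with h2 | h2
        · exact absurd h2 h
        · have := h2 s s' hs (by omega)
          omega
      · simp only [if_neg h]
        rw [hε] at h
        simp only [not_not] at h
        exact h s s' hs (by omega))
    x hxE (right_ne_zero_of_mul hx')
  rw [← hcval] at hx'2
  refine ⟨J ∪ S.image i, ?_, ?_, x', ?_, hx'2⟩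
  · intro j hj
    rcases Finset.mem_union.1 hj with h | h
    · exact hM (Finset.mem_sdiff.1 h).1
    · obtain ⟨s, hs, rfl⟩ := Finset.mem_image.1 h
      exact Finset.mem_range.2 (hin s (Nat.lt_succ_iff.1 (Finset.mem_range.1 (hS hs))))
  · have h1 := Finset.card_union_le J (S.image i)
    have h2 : (S.image i).card ≤ S.card := Finset.card_image_le
    have h3 : J.card = M.card - (N + 1) := by
      rw [hJ, Finset.card_sdiff_of_subset hIM, hIc]
    have h4 : N + 1 ≤ M.card := by
      rw [← hIc]
      exact Finset.card_le_card hIM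
    omega
  · intro j hj
    rw [Finset.mem_union, not_or] at hj
    rw [hx'1 j fun s hs h => hj.2 (Finset.mem_image.2 ⟨s, hs, h⟩), hE, mix, if_neg hj.1]

/-- Near points for sums of products. -/
theorem prod_near [Infinite F] {n W N : ℕ} (lam : o → (Fin k → κ × κ) → F)
    (C : o → Fin k → Chain F κ)
    (hW : (Fintype.card κ ^ k * Fintype.card o) ^ 2 ≤ W) (hN : Tb W ≤ N)
    (hv : ∀ e b, IsOrder n n (C e b).v)
    (x₀ : ℕ → F) (hgood : ∀ e b, Good n (C e b).v (C e b).M x₀)
    (hne : ∃ x, cval n lam C x ≠ 0) :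
    ∃ s ⊆ Finset.range n, s.card ≤ N ^ 2 ^ (Fintype.card o * k) ∧ ∃ x, (∀ i ∉ s, x i = x₀ i) ∧
      cval n lam C x ≠ 0 := by
  classical
  obtain ⟨x, hx⟩ := hne
  have key : ∀ (m : ℕ) (s : Finset ℕ) (y : ℕ → F), s.card ≤ m → s ⊆ Finset.range n →
      (∀ l ∉ s, y l = x₀ l) → cval n lam C y ≠ 0 →
      ∃ s ⊆ Finset.range n, s.card ≤ N ^ 2 ^ (Fintype.card o * k) ∧
        ∃ x, (∀ i ∉ s, x i = x₀ i) ∧ cval n lam C x ≠ 0 := by
    intro m
    induction m with
    | zero =>
      intro s y hm hs hy hne
      exact ⟨s, hs, by omega, y, hy, hne⟩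
    | succ m ih =>
      intro s y hm hs hy hne
      by_cases hc : s.card ≤ N ^ 2 ^ (Fintype.card o * k)
      · exact ⟨s, hs, hc, y, hy, hne⟩
      · obtain ⟨s', hs', hs'c, y', hy', hne'⟩ := prod_step lam C hW hN hv x₀ hgood s hs
          (by omega) y hy hne
        exact ih s' y' (by omega) hs' hy' hne'
  refine key n (Finset.range n) (fun i => if i < n then x i else x₀ i)
    (by rw [Finset.card_range]) (fun _ h => h) ?_ ?_
  · intro l hl
    exact if_neg (by rwa [Finset.mem_range] at hl)
  · have h1 : cval n lam C (fun i => if i < n then x i else x₀ i) = cval n lam C x := by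
      rw [cval, cval]
      congr 1
      funext e b
      apply segx_congr
      intro l _ hl
      exact if_pos ((hv e b).lt l hl)
    rw [h1]
    exact hx

end

end Pool.Agent.Helper4.RO
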