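import Mathlib
import Pool.Agent.Helper4.RO.Near

/-!
# Hitting sums of products of read-once oblivious branching programs in different orders
-/

namespace Pool.Agent.Helper4.RO

set_option linter.unusedSectionVars false
set_option linter.unusedDecidableInType false

open Matrix

/-- The number of modifications for sums of `r` products of `k` chains of width `w`. -/
def Nd (w k r : ℕ) : ℕ := Tb ((w ^ k * r) ^ 2) ^ 2 ^ (r * k)

theorem Chain.val_eq_sum {F : Type*} [Field F] {κ : Type*} [Fintype κ] [DecidableEq κ] (n : ℕ)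
    (C : Chain F κ) (x : ℕ → F) :
    C.val n x = ∑ p : κ × κ, C.u p.1 * C.w p.2 * segx C.M C.v x 0 n p.1 p.2 := by
  rw [Chain.val, dotProduct, Fintype.sum_prod_type]
  refine Finset.sum_congr rfl fun a _ => ?_
  rw [Matrix.mulVec, dotProduct, Finset.mul_sum]
  refine Finset.sum_congr rfl fun b _ => ?_
  ring

theorem exists_good' {F : Type*} [Field F] [Infinite F] {N : ℕ} {S : ℕ → Set (ℕ → F)}
    (hS : IsLevels N S) {κ : Type*} [Fintype κ] [DecidableEq κ] {n : ℕ} {α : Type*} [Fintype α]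
    (C : α → Chain F κ) (hv : ∀ b, IsOrder N n (C b).v) :
    ∃ x₀ ∈ S (lev (Fintype.card κ)), ∀ b, Good n (C b).v (C b).M x₀ := by
  obtain ⟨x₀, hx₀, h⟩ := exists_good hS (fun c => C ((Fintype.equivFin α).symm c))
    (fun c => hv _)
  refine ⟨x₀, hx₀, fun b => ?_⟩
  have h1 := h (Fintype.equivFin α b)
  rwa [Equiv.symm_apply_apply] at h1

/-- Sums of products of chains are hit. -/
theorem exists_hit_prod {F : Type*} [Field F] [Infinite F] {n : ℕ} {S : ℕ → Set (ℕ → F)}
    (hS : IsLevels n S) {κ : Type*} [Fintype κ] [DecidableEq κ] {o : Type*} [Fintype o]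
    [DecidableEq o] {k : ℕ} (C : o → Fin k → Chain F κ) (c : o → F)
    (hv : ∀ e b, IsOrder n n (C e b).v) (hne : ∃ x, ∑ e, c e * ∏ b, (C e b).val n x ≠ 0) :
    ∃ x ∈ S (lev (Fintype.card κ) + Nd (Fintype.card κ) k (Fintype.card o)),
      ∑ e, c e * ∏ b, (C e b).val n x ≠ 0 := by
  obtain ⟨x₀, hx₀, hg⟩ := exists_good' hS (fun p : o × Fin k => C p.1 p.2) fun p => hv p.1 p.2
  set lam : o → (Fin k → κ × κ) → F := fun e K =>
    c e * ∏ b, ((C e b).u (K b).1 * (C e b).w (K b).2) with hlam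
  have hval : ∀ x, cval n lam C x = ∑ e, c e * ∏ b, (C e b).val n x := by
    intro x
    rw [cval, fval]
    refine Finset.sum_congr rfl fun e _ => ?_
    simp only [Chain.val_eq_sum]
    rw [Finset.prod_univ_sum, Fintype.piFinset_univ, Finset.mul_sum]
    refine Finset.sum_congr rfl fun K _ => ?_
    rw [hlam]
    dsimp only
    rw [mul_assoc, ← Finset.prod_mul_distrib]
  obtain ⟨x, hx⟩ := hne
  obtain ⟨s, hs, hc, y, hy, hy'⟩ := prod_near lam C (N := Tb ((Fintype.card κ ^ k *
    Fintype.card o) ^ 2)) le_rfl le_rfl hv x₀ (fun e b => hg (e, b)) ⟨x, by rwa [hval]⟩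
  rw [hval] at hy'
  exact ⟨y, hS.modif _ _ x₀ hx₀ s hs hc y hy, hy'⟩

/-- Sums of products of branching programs in different orders are hit. -/
theorem sp_hit {n w k : ℕ} {o : Type*} [Fintype o] [DecidableEq o]
    (A : o → Fin k → MvPolynomial (Fin n) ℂ) (hA : ∀ e b, IsRO w (A e b)) (c : o → ℂ)
    (h : ∑ e, MvPolynomial.C (c e) * ∏ b, A e b ≠ 0) :
    ∃ x ∈ lvl n (lev w + Nd w k (Fintype.card o) + 1),
      MvPolynomial.eval (fun i : Fin n => x i) (∑ e, MvPolynomial.C (c e) * ∏ b, A e b) ≠ 0 := by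
  choose C hC1 hC2 using fun e b => (hA e b).exists_chain
  have hval : ∀ x : ℕ → ℂ, ∑ e, c e * ∏ b, (C e b).val n x =
      MvPolynomial.eval (fun i : Fin n => x i) (∑ e, MvPolynomial.C (c e) * ∏ b, A e b) := by
    intro x
    rw [map_sum]
    refine Finset.sum_congr rfl fun e _ => ?_
    rw [map_mul, map_prod, MvPolynomial.eval_C]
    congr 1
    exact Finset.prod_congr rfl fun b _ => hC2 e b x
  obtain ⟨a, ha⟩ := Pool.Agent.Helper28.D4.exists_eval_ne_zero _ h
  obtain ⟨x, hx, hx'⟩ := exists_hit_prod (isLevels_lvl n) C c hC1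
    ⟨fun i => if h : i < n then a ⟨i, h⟩ else 0, by
      rw [hval]
      simpa using ha⟩
  rw [hval] at hx'
  rw [Fintype.card_fin] at hx
  exact ⟨x, hx, hx'⟩

/-- The level for `t × t` determinants of branching programs of width `w`. -/
def Kdet (w t : ℕ) : ℕ := lev w + Nd w t t.factorial + 1

/-- Determinants of branching programs in different orders are hit. -/
theorem minor_hit {n w t : ℕ} (A : Fin t → Fin t → MvPolynomial (Fin n) ℂ)
    (hA : ∀ i j, IsRO w (A i j)) (h : (Matrix.of A).det ≠ 0) :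
    ∃ x ∈ lvl n (Kdet w t), MvPolynomial.eval (fun i : Fin n => x i) (Matrix.of A).det ≠ 0 := by
  have h1 : (Matrix.of A).det = ∑ σ : Equiv.Perm (Fin t),
      MvPolynomial.C ((Equiv.Perm.sign σ : ℤ) : ℂ) * ∏ b, A (σ b) b := by
    rw [Matrix.det_apply']
    refine Finset.sum_congr rfl fun σ _ => ?_
    rw [map_intCast]
    rfl
  rw [h1] at h ⊢
  obtain ⟨x, hx, hx'⟩ := sp_hit (fun (σ : Equiv.Perm (Fin t)) b => A (σ b) b)
    (fun σ b => hA _ _) (fun σ => ((Equiv.Perm.sign σ : ℤ) : ℂ)) h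
  rw [Fintype.card_perm, Fintype.card_fin] at hx
  exact ⟨x, hx, hx'⟩

end Pool.Agent.Helper4.RO
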