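import Mathlib
import Pool.Agent.Helper62.VT.Roabp
import Pool.Agent.Helper62.VT.Gsparse
import Pool.Agent.Helper4.RO.Minor

/-!
# Products of polynomials in few branching programs in different orders
-/

namespace Pool.Agent.Helper4.RO

open MvPolynomial
open Pool.Agent.Helper28.D4 (G)
open Pool.Agent.Helper62.VT (mprod split W spec pts exists_point exists_factorization
  coeff_split_aeval faithful_of_tuple G_append G_zero algInd_of_minor split_X_mem split_X_not)

variable {n : ℕ}

/-- Renaming the variables of a program in the standard order. -/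
theorem isRO_iff_rename {w : ℕ} (f : MvPolynomial (Fin n) ℂ) :
    IsRO w f ↔ ∃ (σ : Equiv.Perm (Fin n)) (f₀ : MvPolynomial (Fin n) ℂ),
      Pool.Agent.Helper62.VT.IsRO w f₀ ∧ f = rename σ f₀ := by
  have key : ∀ (σ : Equiv.Perm (Fin n)) (M : Fin n → Matrix (Fin w) (Fin w) (Polynomial ℂ))
      (u v : Fin w → ℂ), (∑ i, ∑ j, C (u i * v j) * (List.ofFn fun l => (M l).map
        fun p => Polynomial.aeval (X (σ l) : MvPolynomial (Fin n) ℂ) p).prod i j) =
      rename σ (∑ i, ∑ j, C (u i) * mprod M i j * C (v j)) := by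
    intro σ M u v
    rw [map_sum]
    refine Finset.sum_congr rfl fun i _ => ?_
    rw [map_sum]
    refine Finset.sum_congr rfl fun j _ => ?_
    rw [map_mul (rename σ), map_mul (rename σ), rename_C, rename_C, C_mul]
    have h1 : (rename σ : MvPolynomial (Fin n) ℂ →ₐ[ℂ] _).mapMatrix (mprod M) =
        (List.ofFn fun l => (M l).map
          fun p => Polynomial.aeval (X (σ l) : MvPolynomial (Fin n) ℂ) p).prod := by
      rw [mprod, map_list_prod, List.map_ofFn]
      congr 2
      funext l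
      ext1 a b
      change rename σ (Polynomial.aeval (X l : MvPolynomial (Fin n) ℂ) (M l a b)) = _
      rw [← Polynomial.aeval_algHom_apply, rename_X]
      rfl
    rw [← h1]
    change _ = C (u i) * (rename σ : MvPolynomial (Fin n) ℂ →ₐ[ℂ] _).mapMatrix (mprod M) i j * C (v j)
    ring
  constructor
  · rintro ⟨σ, M, u, v, rfl⟩
    exact ⟨σ, _, ⟨M, u, v, rfl⟩, key σ M u v⟩
  · rintro ⟨σ, _, ⟨M, u, v, rfl⟩, rfl⟩
    exact ⟨σ, M, u, v, (key σ M u v).symm⟩

theorem isRO_zero (w : ℕ) : IsRO w (0 : MvPolynomial (Fin n) ℂ) :=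
  (isRO_iff_rename 0).2 ⟨1, 0, Pool.Agent.Helper62.VT.isRO_zero w, (map_zero _).symm⟩

theorem isRO_pderiv {w : ℕ} {f : MvPolynomial (Fin n) ℂ} (hf : IsRO w f) (e : Fin n) :
    IsRO w (pderiv e f) := by
  obtain ⟨σ, f₀, h₀, rfl⟩ := (isRO_iff_rename f).1 hf
  refine (isRO_iff_rename _).2 ⟨σ, pderiv (σ.symm e) f₀,
    Pool.Agent.Helper62.VT.IsRO.pderiv (σ.symm e) h₀, ?_⟩
  rw [← pderiv_rename σ.injective, Equiv.apply_symm_apply]

/-! ### Parameters -/

/-- Splitting commutes with renaming. -/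
theorem split_rename {r : ℕ} {e : Fin r → Fin n} (he : Function.Injective e)
    (σ : Equiv.Perm (Fin n)) (f : MvPolynomial (Fin n) ℂ) :
    split e (X : Fin n → MvPolynomial (Fin n) ℂ) (rename σ f) =
      mapAlgHom (σ := Fin r) (rename σ : MvPolynomial (Fin n) ℂ →ₐ[ℂ] MvPolynomial (Fin n) ℂ)
        (split (fun j => σ.symm (e j)) (X : Fin n → MvPolynomial (Fin n) ℂ) f) := by
  have he' : Function.Injective fun j => σ.symm (e j) := σ.symm.injective.comp he
  have h : (split e (X : Fin n → MvPolynomial (Fin n) ℂ)).comp (rename σ) =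
      (mapAlgHom (σ := Fin r) (rename σ : MvPolynomial (Fin n) ℂ →ₐ[ℂ] MvPolynomial (Fin n) ℂ)).comp
        (split (fun j => σ.symm (e j)) (X : Fin n → MvPolynomial (Fin n) ℂ)) := by
    apply MvPolynomial.algHom_ext
    intro l
    rw [AlgHom.comp_apply, AlgHom.comp_apply, rename_X]
    by_cases hl : ∃ j, σ.symm (e j) = l
    · obtain ⟨j, rfl⟩ := hl
      rw [Equiv.apply_symm_apply, split_X_mem he, split_X_mem he' _ j, mapAlgHom_apply, map_X]
    · have hl' : ∀ j, σ.symm (e j) ≠ l := fun j h => hl ⟨j, h⟩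
      have hl'' : ∀ j, e j ≠ σ l := fun j h => hl' j (by rw [h, Equiv.symm_apply_apply])
      rw [split_X_not _ hl', split_X_not _ hl'', mapAlgHom_apply, map_C]
      congr 1
      exact (rename_X _ _).symm
  exact congrArg (fun φ => φ f) h

/-- The parameters of a tuple of branching programs in different orders. -/
theorem exists_params {r R κ q : ℕ} {e : Fin r → Fin n} (he : Function.Injective e)
    (hr : r ≤ R) (f : Fin q → MvPolynomial (Fin n) ℂ) (hf : ∀ j, IsRO κ (f j)) :
    ∃ γ : Fin (q * ((R + 1) * κ ^ 2)) → MvPolynomial (Fin n) ℂ, (∀ j, IsRO κ (γ j)) ∧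
      ∀ j, split e (X : Fin n → MvPolynomial (Fin n) ℂ) (f j) ∈
        W r (Algebra.adjoin ℂ (Set.range γ)) := by
  classical
  choose σ f₀ hf₀ hfσ using fun j => (isRO_iff_rename (f j)).1 (hf j)
  have hpar := fun j => Pool.Agent.Helper62.VT.exists_roabp_params (q := 1)
    (e := fun i => (σ j).symm (e i)) ((σ j).symm.injective.comp he) hr
    (fun _ : Fin 1 => f₀ j) (fun _ => hf₀ j)
  choose γ hγ1 hγ2 using hpar
  set γ' : Fin q × Fin (1 * ((R + 1) * κ ^ 2)) → MvPolynomial (Fin n) ℂ := fun p =>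
    rename (σ p.1) (γ p.1 p.2) with hγ'
  have hcard : Fintype.card (Fin q × Fin (1 * ((R + 1) * κ ^ 2))) =
      q * ((R + 1) * κ ^ 2) := by
    rw [Fintype.card_prod, Fintype.card_fin, Fintype.card_fin, one_mul]
  let ι := Fintype.equivFinOfCardEq hcard
  refine ⟨fun i => γ' (ι.symm i), ?_, ?_⟩
  · intro i
    exact (isRO_iff_rename _).2 ⟨σ (ι.symm i).1, _, hγ1 _ _, rfl⟩
  · intro j
    rw [hfσ j, split_rename he]
    have h1 := hγ2 j 0
    rw [Pool.Agent.Helper62.VT.mem_W_iff] at h1 ⊢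
    intro k
    rw [mapAlgHom_apply, coeff_map]
    have h2 : Algebra.adjoin ℂ (Set.range (γ j)) ≤
        (Algebra.adjoin ℂ (Set.range fun i => γ' (ι.symm i))).comap (rename (σ j)) := by
      apply Algebra.adjoin_le
      rintro _ ⟨i, rfl⟩
      apply Algebra.subset_adjoin
      refine ⟨ι (j, i), ?_⟩
      dsimp only
      rw [Equiv.symm_apply_apply]
      rfl
    exact h2 (h1 k)

/-! ### Monotonicity of the bounds -/

theorem Tb_mono {a b : ℕ} (h : a ≤ b) : Tb a ≤ Tb b := by
  rw [Tb, Tb]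
  apply Nat.add_le_add_right
  calc (2 * a + 2) ^ (a + 1) ≤ (2 * b + 2) ^ (a + 1) := Nat.pow_le_pow_left (by omega) _
    _ ≤ (2 * b + 2) ^ (b + 1) := Nat.pow_le_pow_right (by omega) (by omega)

theorem Kdet_mono {κ t M : ℕ} (hκ : 1 ≤ κ) (h : t ≤ M) : Kdet κ t ≤ Kdet κ M := by
  rw [Kdet, Kdet]
  apply Nat.add_le_add_right
  apply Nat.add_le_add_left
  rw [Nd, Nd]
  have h1 : t.factorial ≤ M.factorial := Nat.factorial_le h
  have h2 : Tb ((κ ^ t * t.factorial) ^ 2) ≤ Tb ((κ ^ M * M.factorial) ^ 2) :=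
    Tb_mono (Nat.pow_le_pow_left (Nat.mul_le_mul (Nat.pow_le_pow_right hκ h) h1) 2)
  have h3 : 1 ≤ Tb ((κ ^ M * M.factorial) ^ 2) := Nat.succ_le_succ (Nat.zero_le _)
  exact (Nat.pow_le_pow_left h2 _).trans (Nat.pow_le_pow_right h3
    (Nat.pow_le_pow_right (by norm_num) (Nat.mul_le_mul h1 h)))

/-! ### Faithfulness -/

/-- **Faithfulness** for few branching programs in different unknown orders. -/
theorem ro_faithful (n M κ : ℕ) (hκ : 1 ≤ κ) (c : Fin M → MvPolynomial (Fin n) ℂ)
    (hc : ∀ j, IsRO κ (c j)) (H : MvPolynomial (Fin M) ℂ) (h0 : aeval c H ≠ 0) :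
    spec n (Kdet κ M + M) (fun _ => 0) (aeval c H) ≠ 0 := by
  classical
  obtain ⟨t, ht, s, hs, B, g, hB, hBg⟩ := Pool.Agent.Helper28.D4.norm_trick (r := M) c (by
    intro s hs
    have : Function.Injective s := fun i j hij => hs.injective (by simp [hij])
    have := Fintype.card_le_of_injective s this
    simp at this) H h0
  intro h0'
  have h1 := congrArg (spec n (Kdet κ M + M) (fun _ => 0)) hBg
  rw [map_mul, h0', zero_mul, comp_aeval_apply] at h1
  obtain ⟨e, hdet⟩ := Pool.Agent.Helper93.D4.jac_of_algInd (fun i => c (s i)) hs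
  have he : Function.Injective e := by
    intro j k hjk
    by_contra hne
    apply hdet
    apply Matrix.det_zero_of_column_eq hne
    intro i
    simp [hjk]
  obtain ⟨x, hx, hx'⟩ := minor_hit (w := κ) (fun i j => MvPolynomial.pderiv (e j) (c (s i)))
    (fun i j => isRO_pderiv (hc (s i)) (e j)) hdet
  obtain ⟨z, w, hzw⟩ := lvl_mono (Kdet_mono hκ ht) hx
  have h2 : AlgebraicIndependent ℂ
      (fun i => spec n (Kdet κ M + M) (fun _ => 0) (c (s i))) := by
    refine algInd_of_minor ht (fun i => c (s i)) e he z w ?_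
    have h3 : (fun l => G n (Kdet κ M) z w l) = fun l : Fin n => x l := funext fun l => (hzw l).symm
    rw [h3]
    exact hx'
  rw [algebraicIndependent_iff] at h2
  exact hB (h2 B h1)

/-! ### The hitting set -/

/-- The factors. -/
def RoFactors (n q κ : ℕ) : Set (MvPolynomial (Fin n) ℂ) :=
  {f | ∃ (A : Fin q → MvPolynomial (Fin n) ℂ) (F : MvPolynomial (Fin q) ℂ),
    (∀ j, IsRO κ (A j)) ∧ f = aeval A F}

/-- The number of parameters of `r + 1` factors. -/
def MF (r q κ : ℕ) : ℕ := (r + 1) * (q * ((r + 1) * κ ^ 2))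

/-- The number of blocks of the generator. -/
def KF (r q κ : ℕ) : ℕ := r + (Kdet κ (MF r q κ) + MF r q κ)

theorem factors_hit {m r q κ d : ℕ} (hκ : 1 ≤ κ) (P : Fin m → MvPolynomial (Fin n) ℂ)
    (hP : ∀ i, P i ∈ Submonoid.closure (RoFactors n q κ))
    (hr : ∀ s : Fin (r + 1) → Fin m, ¬ AlgebraicIndependent ℂ fun i => P (s i))
    (g : MvPolynomial (Fin m) ℂ) (h0 : aeval P g ≠ 0) (hd : (aeval P g).totalDegree ≤ d) :
    ∃ a ∈ pts n (KF r q κ) (fun _ _ => 0) (d * n),
      eval (fun l => ((a l : ℤ) : ℂ)) (aeval P g) ≠ 0 := by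
  classical
  obtain ⟨ε, hε, h⟩ := exists_point (M := Kdet κ (MF r q κ) + MF r q κ) (D := 0) P hr g h0 hd
    {fun _ : Fin n => 0} (by
      rintro ε rfl l
      rw [Polynomial.natDegree_zero]) (b := d * n) (by
      rw [zero_add]) (by
      intro r' hr' t ht e he
      have hL : ∀ i, ∃ L : List (MvPolynomial (Fin n) ℂ), (∀ f ∈ L, f ∈ RoFactors n q κ) ∧
          P (t i) = L.prod := fun i => by
        obtain ⟨L, hL, h⟩ := Submonoid.exists_list_of_mem_closure (hP (t i))
        exact ⟨L, hL, h.symm⟩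
      choose L hL1 hL2 using hL
      obtain ⟨B, hB1, hB2, f, mm, hf0, hfL, hfP, -⟩ :=
        exists_factorization (fun i => P (t i)) L hL2 ht
      refine ⟨B, hB1, hB2, f, mm, hf0, hfP, ?_⟩
      have hfac : ∀ b, f b ∈ RoFactors n q κ := by
        intro b
        obtain ⟨i, hi⟩ := hfL b
        exact hL1 i _ hi
      choose A F hA hfA using hfac
      choose γ hγ1 hγ2 using fun b => exists_params he hr' (A b) (hA b)
      refine ⟨fun b => Set.range (γ b), ?_, fun _ => 0, rfl, ?_⟩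
      · intro b k
        rw [hfA b]
        exact coeff_split_aeval _ _ _ (hγ2 b) k
      · intro T hT
        exact faithful_of_tuple _ (isRO_zero κ) γ hγ1 (t := r' + 1)
          (Nat.mul_le_mul_right _ (Nat.succ_le_succ hr'))
          (fun c hc H hH => ro_faithful n (MF r q κ) κ hκ c hc H hH) T hT)
  rw [Set.mem_singleton_iff] at hε
  subst hε
  have h1 : (fun _ : Fin n => (0 : Polynomial ℤ).eval) = fun (_ : Fin n) (_ : ℤ) => (0 : ℤ) := by
    funext l t
    exact Polynomial.eval_zero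
  rw [h1] at h
  exact h

end Pool.Agent.Helper4.RO
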